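import Pool.Agent.Q12.NV.Stm

/-! Basic facts on `mul` and `act`. -/

set_option autoImplicit false

namespace Pool.Agent.Q12.NV

open scoped BigOperators
open Matrix

variable {n k : ℕ} {K : Type} [CommRing K]

theorem mul_single (c : Ten n k K) (J : Fin n → Fin k) (l : Fin k) :
    mul c (fun p => Pi.single (J p) 1) l = c (J, l) := by
  unfold mul
  rw [Finset.sum_eq_single J]
  · simp
  · intro b _ hb
    obtain ⟨p, hp⟩ := Function.ne_iff.mp hb
    rw [Finset.prod_eq_zero (Finset.mem_univ p), zero_mul]
    simp [hp]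
  · simp

theorem mul_act (h g : Matrix (Fin k) (Fin k) K) (c : Ten n k K) (x : Fin n → Fin k → K) :
    mul (act h g c) x = h *ᵥ mul c (fun p => g *ᵥ x p) := by
  funext j
  have h1 : ∀ J : Fin n → Fin k, (∏ p, (g *ᵥ x p) (J p)) =
      ∑ I : Fin n → Fin k, ∏ p, (g (J p) (I p) * x p (I p)) := by
    intro J
    simp only [Matrix.mulVec, dotProduct]
    rw [Finset.prod_univ_sum]
    simp
  simp only [mul, act, Matrix.mulVec, dotProduct]
  have h2 : ∀ J : Fin n → Fin k, (∏ p, ∑ i, g (J p) i * x p i) =
      ∑ I : Fin n → Fin k, ∏ p, (g (J p) (I p) * x p (I p)) := fun J => h1 J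
  simp only [h2]
  simp only [Finset.mul_sum, Finset.sum_mul]
  rw [Finset.sum_comm]
  conv_rhs => rw [Finset.sum_comm]
  refine Finset.sum_congr rfl fun J _ => ?_
  rw [Finset.sum_comm]
  refine Finset.sum_congr rfl fun l _ => ?_
  refine Finset.sum_congr rfl fun I _ => ?_
  rw [Finset.prod_mul_distrib]
  ring

/-- Two structures with the same products of basis vectors are equal. -/
theorem ext_mul {c d : Ten n k K} (h : ∀ x, mul c x = mul d x) : c = d := by
  funext ⟨J, l⟩
  rw [← mul_single c J l, ← mul_single d J l, h]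

theorem act_act (h g h' g' : Matrix (Fin k) (Fin k) K) (c : Ten n k K) :
    act h g (act h' g' c) = act (h * h') (g' * g) c := by
  apply ext_mul
  intro x
  simp only [mul_act, Matrix.mulVec_mulVec]

theorem act_one (c : Ten n k K) : act 1 1 c = c := by
  apply ext_mul
  intro x
  simp only [mul_act, Matrix.one_mulVec]

theorem mul_smul_left (r : K) (c : Ten n k K) (x : Fin n → Fin k → K) :
    mul (r • c) x = r • mul c x := by
  funext l
  simp only [mul, Pi.smul_apply, smul_eq_mul, Finset.mul_sum]
  exact Finset.sum_congr rfl fun J _ => by ring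

theorem mul_smul_right (r : K) (c : Ten n k K) (x : Fin n → Fin k → K) :
    mul c (fun p => r • x p) = r ^ n • mul c x := by
  funext l
  simp only [mul, Pi.smul_apply, smul_eq_mul, Finset.mul_sum, Finset.prod_mul_distrib]
  refine Finset.sum_congr rfl fun J _ => ?_
  simp
  ring

theorem act_smul (h g : Matrix (Fin k) (Fin k) K) (r : K) (c : Ten n k K) :
    act h g (r • c) = r • act h g c := by
  apply ext_mul
  intro x
  simp only [mul_act, mul_smul_left, Matrix.mulVec_smul]

theorem act_smul_left (h g : Matrix (Fin k) (Fin k) K) (r : K) (c : Ten n k K) :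
    act (r • h) g c = r • act h g c := by
  apply ext_mul
  intro x
  simp only [mul_act, mul_smul_left, Matrix.smul_mulVec]

theorem act_smul_right (h g : Matrix (Fin k) (Fin k) K) (r : K) (c : Ten n k K) :
    act h (r • g) c = r ^ n • act h g c := by
  apply ext_mul
  intro x
  simp only [mul_act, mul_smul_left, Matrix.smul_mulVec, mul_smul_right, Matrix.mulVec_smul]

theorem mul_comp_perm (c : Ten n k K) (σ : Equiv.Perm (Fin n)) (x : Fin n → Fin k → K)
    (l : Fin k) :
    mul c (x ∘ σ) l = ∑ J : Fin n → Fin k, (∏ p, x p (J p)) * c (J ∘ σ, l) := by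
  unfold mul
  refine Fintype.sum_equiv (Equiv.arrowCongr σ (Equiv.refl _)) _ _ fun J => ?_
  congr 1
  · refine Fintype.prod_equiv σ _ _ fun p => ?_
    simp
  · congr 2
    funext p
    simp

theorem comm_iff (A C : Finset (Fin n)) (c : Ten n k K) : Comm A C c ↔ Typ A C c := by
  constructor
  · rintro ⟨h1, h2⟩
    refine ⟨fun i hi j hj hij J l => ?_, fun i hi j hj J l => ?_⟩
    · rw [← mul_single c, ← mul_single c]
      exact congrFun (h1 i hi j hj hij fun p => Pi.single (J p) 1) l
    · rw [← mul_single c, ← mul_single c]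
      exact congrFun (h2 i hi j hj fun p => Pi.single (J p) 1) l
  · rintro ⟨h1, h2⟩
    refine ⟨fun i hi j hj hij x => ?_, fun i hi j hj x => ?_⟩
    · funext l
      rw [mul_comp_perm]
      simp only [h1 i hi j hj hij, Pi.neg_apply, mul, mul_neg, Finset.sum_neg_distrib]
    · funext l
      rw [mul_comp_perm]
      simp only [h2 i hi j hj, mul]

theorem Comm.act {A C : Finset (Fin n)} {c : Ten n k K} (hc : Comm A C c)
    (h g : Matrix (Fin k) (Fin k) K) : Comm A C (act h g c) := by
  refine ⟨fun i hi j hj hij x => ?_, fun i hi j hj x => ?_⟩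
  · rw [mul_act, mul_act]
    have := hc.1 i hi j hj hij (fun p => g *ᵥ x p)
    rw [← Matrix.mulVec_neg, ← this]
    rfl
  · rw [mul_act, mul_act]
    have := hc.2 i hi j hj (fun p => g *ᵥ x p)
    rw [← this]
    rfl

theorem Typ.act {A C : Finset (Fin n)} {c : Ten n k K} (hc : Typ A C c)
    (h g : Matrix (Fin k) (Fin k) K) : Typ A C (act h g c) :=
  (comm_iff A C _).1 (((comm_iff A C c).2 hc).act h g)

theorem map_act {L : Type} [CommRing L] (f : K →+* L) (h g : Matrix (Fin k) (Fin k) K)
    (c : Ten n k K) :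
    (fun x => f (act h g c x) : Ten n k L) = act (h.map f) (g.map f) (fun x => f (c x)) := by
  funext x
  simp only [NV.act, map_sum, map_mul, map_prod, Matrix.map_apply]

end Pool.Agent.Q12.NV
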