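import Pool.Agent.Q12.NV.Act
import Pool.Agent.Helper834.EC.Dim1

/-! Assembly: the dimension from the steps. -/

set_option autoImplicit false

namespace Pool.Agent.Q12.NV

open scoped BigOperators
open MvPolynomial Matrix

/-- The Krull dimension of the image of a homomorphism to a polynomial ring all of whose variables
are algebraic over the image. -/
theorem krullDim_range {σ τ : Type} [Finite σ] [Fintype τ] (Ψ : MvPolynomial σ ℂ →ₐ[ℂ] MvPolynomial τ ℂ)
    (h : ∀ t, IsAlgebraic Ψ.range (MvPolynomial.X t : MvPolynomial τ ℂ)) :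
    ringKrullDim (MvPolynomial σ ℂ ⧸ RingHom.ker Ψ) = (Fintype.card τ : ℕ) := by
  have e : (MvPolynomial σ ℂ ⧸ RingHom.ker Ψ) ≃+* Ψ.range :=
    (Ideal.quotientKerEquivRange Ψ).toRingEquiv
  rw [ringKrullDim_eq_of_ringEquiv e]
  haveI : Algebra.FiniteType ℂ (MvPolynomial σ ℂ) := inferInstance
  haveI : Algebra.FiniteType ℂ Ψ.range := by
    refine Algebra.FiniteType.of_surjective (Ψ.rangeRestrict) ?_
    exact Ψ.rangeRestrict_surjective
  obtain ⟨s, hs1, hs2⟩ := Pool.Agent.Helper834.EC.exists_ringKrullDim_eq_trdeg ℂ Ψ.range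
  rw [hs1]
  haveI hal : Algebra.IsAlgebraic Ψ.range (MvPolynomial τ ℂ) := by
    refine ⟨fun x => ?_⟩
    induction x using MvPolynomial.induction_on with
    | C c =>
      have : (C c : MvPolynomial τ ℂ) = algebraMap Ψ.range (MvPolynomial τ ℂ) (algebraMap ℂ Ψ.range c) := by
        rfl
      rw [this]
      exact isAlgebraic_algebraMap _
    | add p q hp hq => exact hp.add hq
    | mul_X p t hp => exact hp.mul (h t)
  have h1 := trdeg_add_eq ℂ Ψ.range (A := MvPolynomial τ ℂ)
  rw [trdeg_eq_zero (R := Ψ.range) (A := MvPolynomial τ ℂ), add_zero, hs2,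
    MvPolynomial.trdeg_of_isDomain] at h1
  have h2 : s = Fintype.card τ := by
    have : (s : Cardinal) = (Fintype.card τ : Cardinal) := by
      rw [h1]
      simp
    exact_mod_cast this
  rw [h2]

section Low

variable {k a : ℕ} {K L : Type} [CommRing K] [CommRing L]

theorem LowW.det {u : Matrix (Fin k) (Fin k) K} (h : LowW a u) : u.det = 1 := by
  rw [Matrix.det_of_isLowerTriangular]
  · refine Finset.prod_eq_one fun i _ => ?_
    rw [h i i (fun h' => lt_irrefl _ h'.1), if_pos rfl]
  · intro i j hij
    have hij' : i < j := hij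
    rw [h i j (fun h' => lt_asymm h'.1 hij'), if_neg hij'.ne]

theorem inv_eq_adj {u : Matrix (Fin k) (Fin k) K} (h : u.det = 1) : u⁻¹ = u.adjugate := by
  rw [Matrix.inv_def, h]
  simp

theorem map_inv {u : Matrix (Fin k) (Fin k) K} (h : u.det = 1) (f : K →+* L) :
    (u.map f)⁻¹ = (u⁻¹).map f := by
  have h1 : (u.map f).det = 1 := by
    have := RingHom.map_det f u
    rw [h, map_one] at this
    exact this.symm
  rw [inv_eq_adj h1, inv_eq_adj h]
  exact (RingHom.map_adjugate f u).symm

theorem LowW.map {u : Matrix (Fin k) (Fin k) K} (h : LowW a u) (f : K →+* L) :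
    LowW a (u.map f) := by
  intro i j hij
  rw [Matrix.map_apply, h i j hij]
  split_ifs <;> simp

end Low

/-- The positions of the free coefficients of the matrices `LowW a`. -/
abbrev Wt (k a : ℕ) : Type := {x : Fin k × Fin k // x.2 < x.1 ∧ (x.2 : ℕ) < k - a}

/-- The generic matrix. -/
noncomputable def uR (k a d : ℕ) : Matrix (Fin k) (Fin k) (MvPolynomial (Wt k a ⊕ Fin d) ℂ) :=
  fun i j => if h : (j < i ∧ (j : ℕ) < k - a) then MvPolynomial.X (Sum.inl ⟨(i, j), h⟩)
    else if i = j then 1 else 0

theorem uR_low (k a d : ℕ) : LowW a (uR k a d) := by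
  intro i j hij
  rw [uR, dif_neg hij]

variable {n k : ℕ} {A C : Finset (Fin n)} {d : ℕ}

/-- The generic element of `Nsub`. -/
noncomputable def muR (a : ℕ) (b : Module.Basis (Fin d) ℂ (Nsub n k A C)) :
    Ten n k (MvPolynomial (Wt k a ⊕ Fin d) ℂ) :=
  fun x => ∑ i, MvPolynomial.C ((b i : Ten n k ℂ) x) * MvPolynomial.X (Sum.inr i)

/-- The generic element of the variety. -/
noncomputable def laR (a : ℕ) (b : Module.Basis (Fin d) ℂ (Nsub n k A C)) :
    Ten n k (MvPolynomial (Wt k a ⊕ Fin d) ℂ) :=
  act (uR k a d) (uR k a d)⁻¹ (muR a b)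

theorem eval_muR (a : ℕ) (b : Module.Basis (Fin d) ℂ (Nsub n k A C)) (y : Wt k a ⊕ Fin d → ℂ) :
    (fun x => eval y (muR a b x) : Ten n k ℂ) =
      ((∑ i, y (Sum.inr i) • b i : Nsub n k A C) : Ten n k ℂ) := by
  funext x
  simp only [muR, map_sum, map_mul, eval_C, eval_X]
  rw [Submodule.coe_sum, Finset.sum_apply]
  refine Finset.sum_congr rfl fun i _ => ?_
  simp [mul_comm]

theorem eval_laR (a : ℕ) (b : Module.Basis (Fin d) ℂ (Nsub n k A C)) (y : Wt k a ⊕ Fin d → ℂ) :
    (fun x => eval y (laR a b x) : Ten n k ℂ) =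
      act ((uR k a d).map (eval y)) ((uR k a d).map (eval y))⁻¹
        ((∑ i, y (Sum.inr i) • b i : Nsub n k A C) : Ten n k ℂ) := by
  have h := map_act (eval y) (uR k a d) (uR k a d)⁻¹ (muR a b)
  rw [eval_muR] at h
  rw [map_inv (uR_low k a d).det]
  exact h

/-- The parametrisation. -/
noncomputable def Psi (a : ℕ) (b : Module.Basis (Fin d) ℂ (Nsub n k A C)) :
    MvPolynomial ((Fin n → Fin k) × Fin k) ℂ →ₐ[ℂ] MvPolynomial (Wt k a ⊕ Fin d) ℂ :=
  aeval (laR a b)

theorem eval_Psi (a : ℕ) (b : Module.Basis (Fin d) ℂ (Nsub n k A C)) (y : Wt k a ⊕ Fin d → ℂ)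
    (f : MvPolynomial ((Fin n → Fin k) × Fin k) ℂ) :
    eval y (Psi a b f) = eval (act ((uR k a d).map (eval y)) ((uR k a d).map (eval y))⁻¹
        ((∑ i, y (Sum.inr i) • b i : Nsub n k A C) : Ten n k ℂ)) f := by
  rw [← eval_laR]
  have h : (eval y).comp (Psi a b : _ →+* MvPolynomial (Wt k a ⊕ Fin d) ℂ) =
      eval (fun x => eval y (laR a b x)) := by
    apply MvPolynomial.ringHom_ext
    · intro r
      simp [Psi]
    · intro i
      simp [Psi]
  exact congrArg (fun g => g f) (congrArg DFunLike.coe h)

theorem ker_Psi (hn : 1 ≤ n) (b : Module.Basis (Fin d) ℂ (Nsub n k A C)) (h_tri : S_tri)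
    (h_nil : S_nil) (h_dens : S_dens) :
    RingHom.ker (Psi A.card b) = vanishingIdeal ℂ (NV.X n k A C) := by
  ext f
  rw [RingHom.mem_ker, mem_vanishingIdeal_iff]
  constructor
  · intro hf x hx
    obtain ⟨hx1, hx2⟩ := hx
    obtain ⟨h, hh, hT⟩ := h_tri n k x hx1
    have hty : Typ A C x := (comm_iff A C x).1 hx2
    have hx3 : x = act h h⁻¹ (act h⁻¹ h x) := by
      rw [act_act, Matrix.mul_nonsing_inv _ hh, act_one]
    rw [aeval_eq_eval]
    rw [hx3]
    refine h_dens n k hn A C f ?_ h _ hh (hty.act _ _) hT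
    intro u c hu hc1 hc2
    let y : Wt k A.card ⊕ Fin d → ℂ := Sum.elim (fun w => u w.1.1 w.1.2)
      (fun i => b.repr ⟨c, hc1, hc2⟩ i)
    have h1 := eval_Psi A.card b y f
    rw [hf, map_zero] at h1
    have h2 : (uR k A.card d).map (eval y) = u := by
      ext i j
      rw [Matrix.map_apply, uR]
      split_ifs with h3 h4
      · simp [y]
      · rw [map_one, hu i j h3, if_pos h4]
      · rw [map_zero, hu i j h3, if_neg h4]
    have h3 : (∑ i, y (Sum.inr i) • b i : Nsub n k A C) = ⟨c, hc1, hc2⟩ := by
      simp only [y, Sum.elim_inr]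
      exact b.sum_repr _
    rw [h2, h3] at h1
    exact h1.symm
  · intro hf
    apply MvPolynomial.funext
    intro y
    rw [eval_Psi, map_zero]
    have h1 : LowW A.card ((uR k A.card d).map (eval y)) := (uR_low k A.card d).map _
    have h2 := (∑ i, y (Sum.inr i) • b i : Nsub n k A C).2
    have h3 := hf (act ((uR k A.card d).map (eval y)) ((uR k A.card d).map (eval y))⁻¹
        ((∑ i, y (Sum.inr i) • b i : Nsub n k A C) : Ten n k ℂ)) ⟨?_, ?_⟩
    · rwa [aeval_eq_eval] at h3
    · exact h_nil n k hn _ h2.2 _ (by rw [h1.det]; exact isUnit_one)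
    · exact (comm_iff A C _).2 (h2.1.act _ _)

/-- The field of the elements which are algebraic over the image of `Psi`. -/
noncomputable def K0 (a : ℕ) (b : Module.Basis (Fin d) ℂ (Nsub n k A C)) :
    Subfield (FractionRing (MvPolynomial (Wt k a ⊕ Fin d) ℂ)) where
  carrier := {x | IsAlgebraic (Psi a b).range x}
  mul_mem' := fun hx hy => hx.mul hy
  one_mem' := isAlgebraic_one
  add_mem' := fun hx hy => hx.add hy
  zero_mem' := isAlgebraic_zero
  neg_mem' := fun hx => hx.neg
  inv_mem' := fun _ hx => hx.inv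

theorem alg_X (hn : 2 ≤ n) (hAC : Disjoint A C) (b : Module.Basis (Fin d) ℂ (Nsub n k A C))
    (h_gen : S_gen) (h_desc : S_desc) (t : Wt k A.card ⊕ Fin d) :
    IsAlgebraic (Psi A.card b).range (MvPolynomial.X t : MvPolynomial (Wt k A.card ⊕ Fin d) ℂ) := by
  let R := MvPolynomial (Wt k A.card ⊕ Fin d) ℂ
  let F := FractionRing R
  have hinj : Function.Injective (algebraMap R F) := IsFractionRing.injective R F
  let φ : R →+* F := algebraMap R F
  have key : ∀ t, φ (MvPolynomial.X t) ∈ K0 A.card b := by
    have hga := h_gen n k hn A C hAC d b (Wt k A.card ⊕ Fin d) Sum.inr Sum.inr_injective F φ hinj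
    have hlow := uR_low k A.card d
    have hlow' : LowW A.card ((uR k A.card d).map φ) := hlow.map φ
    have hla : (fun x => φ (laR A.card b x) : Ten n k F) =
        act ((uR k A.card d).map φ) ((uR k A.card d).map φ)⁻¹ (fun x => φ (muR A.card b x)) := by
      rw [map_inv hlow.det]
      exact map_act φ _ _ _
    have hmem : ∀ x, φ (laR A.card b x) ∈ K0 A.card b := by
      intro x
      change IsAlgebraic (Psi A.card b).range (φ (laR A.card b x))
      have h1 : φ (laR A.card b x) = algebraMap (Psi A.card b).range F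
          ⟨laR A.card b x, ⟨MvPolynomial.X x, by simp [Psi]⟩⟩ := rfl
      rw [h1]
      exact isAlgebraic_algebraMap _
    have htri : Tri (fun x => φ (muR A.card b x) : Ten n k F) := by
      intro J l hJ p
      by_contra hp
      apply hJ
      have : muR A.card b (J, l) = 0 := by
        unfold muR
        refine Finset.sum_eq_zero fun i _ => ?_
        have hb : (b i : Ten n k ℂ) (J, l) = 0 := by
          by_contra h0
          exact hp ((b i).2.2 J l h0 p)
        rw [hb, map_zero, zero_mul]
      change φ (muR A.card b (J, l)) = 0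
      rw [this, map_zero]
    have hu : ∀ i j, (uR k A.card d).map φ i j ∈ K0 A.card b := by
      refine h_desc n k (by omega) A.card F (K0 A.card b) ((uR k A.card d).map φ)
        (fun x => φ (muR A.card b x)) hlow' htri hga ?_
      intro x
      rw [← hla]
      exact hmem x
    -- the coefficients of `mu`
    have hmu : ∀ x, φ (muR A.card b x) ∈ K0 A.card b := by
      let u0 : Matrix (Fin k) (Fin k) (K0 A.card b) := fun i j => ⟨_, hu i j⟩
      let la0 : Ten n k (K0 A.card b) := fun x => ⟨_, hmem x⟩
      have hu0 : u0.map (K0 A.card b).subtype = (uR k A.card d).map φ := by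
        ext i j
        rfl
      have hdet : u0.det = 1 := by
        apply Subtype.val_injective
        have h1 := RingHom.map_det (K0 A.card b).subtype u0
        rw [RingHom.mapMatrix_apply, hu0, hlow'.det] at h1
        exact h1
      have h2 := map_act (K0 A.card b).subtype u0⁻¹ u0 la0
      rw [← map_inv hdet, hu0] at h2
      have h3 : (fun x => (K0 A.card b).subtype (la0 x) : Ten n k F) =
          act ((uR k A.card d).map φ) ((uR k A.card d).map φ)⁻¹ (fun x => φ (muR A.card b x)) := by
        rw [← hla]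
        rfl
      rw [h3, act_act, Matrix.nonsing_inv_mul _ (by rw [hlow'.det]; exact isUnit_one),
        act_one] at h2
      intro x
      rw [← congrFun h2 x]
      exact (act u0⁻¹ u0 la0 x).2
    intro t
    rcases t with w | i
    · have h1 := hu w.1.1 w.1.2
      rw [Matrix.map_apply, uR, dif_pos w.2] at h1
      exact h1
    · -- a linear functional with `ell (b j) = delta i j`
      obtain ⟨ell, hell⟩ := LinearMap.exists_extend (b.coord i)
      have hell' : ∀ j, ell (b j : Ten n k ℂ) = if j = i then 1 else 0 := by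
        intro j
        have h1 := congrArg (fun g => g (b j)) hell
        simp only [LinearMap.comp_apply, Submodule.subtype_apply, Module.Basis.coord_apply,
          Module.Basis.repr_self] at h1
        rw [h1, Finsupp.single_apply]
      have h2 : (MvPolynomial.X (Sum.inr i) : R) =
          ∑ x, MvPolynomial.C (ell (Pi.single x 1)) * muR A.card b x := by
        have h3 : ∀ c : Ten n k ℂ, ell c = ∑ x, ell (Pi.single x 1) * c x := by
          intro c
          have h4 : c = ∑ x, c x • (Pi.single x (1 : ℂ) : Ten n k ℂ) := by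
            funext y
            rw [Finset.sum_apply]
            simp [Pi.single_apply]
          conv_lhs => rw [h4]
          rw [map_sum]
          refine Finset.sum_congr rfl fun x _ => ?_
          rw [map_smul, smul_eq_mul, mul_comm]
        unfold muR
        simp only [Finset.mul_sum]
        rw [Finset.sum_comm]
        have h5 : ∀ j, ∑ x, MvPolynomial.C (ell (Pi.single x 1)) *
            (MvPolynomial.C ((b j : Ten n k ℂ) x) * MvPolynomial.X (Sum.inr j)) =
            (if j = i then MvPolynomial.X (Sum.inr j) else 0 : R) := by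
          intro j
          have h6 : ∀ x, (MvPolynomial.C (ell (Pi.single x 1)) *
            (MvPolynomial.C ((b j : Ten n k ℂ) x) * MvPolynomial.X (Sum.inr j)) : R) =
            MvPolynomial.C (ell (Pi.single x 1) * (b j : Ten n k ℂ) x) *
              MvPolynomial.X (Sum.inr j) := by
            intro x
            rw [MvPolynomial.C_mul]
            ring
          simp only [h6]
          rw [← Finset.sum_mul, ← map_sum, ← h3, hell' j]
          split_ifs <;> simp
        simp only [h5]
        simp
      rw [h2, map_sum]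
      refine Subfield.sum_mem _ fun x _ => ?_
      rw [map_mul]
      refine Subfield.mul_mem _ ?_ (hmu x)
      change IsAlgebraic (Psi A.card b).range (φ (MvPolynomial.C (ell (Pi.single x 1))))
      have h1 : φ (MvPolynomial.C (ell (Pi.single x 1))) = algebraMap (Psi A.card b).range F
          (algebraMap ℂ _ (ell (Pi.single x 1))) := rfl
      rw [h1]
      exact isAlgebraic_algebraMap _
  exact (isAlgebraic_algebraMap_iff hinj).1 (key t)

/-- The dimension, from the steps. -/
theorem main (h_tri : S_tri) (h_nil : S_nil) (h_dens : S_dens) (h_gen : S_gen) (h_desc : S_desc)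
    (h_dim : S_dim) (h_cnt : S_cnt) (n k : ℕ) (hn : 2 ≤ n) (A C : Finset (Fin n))
    (hAC : Disjoint A C) :
    ringKrullDim (MvPolynomial ((Fin n → Fin k) × Fin k) ℂ ⧸ vanishingIdeal ℂ (NV.X n k A C)) =
      (answer n k A.card C.card : ℕ) := by
  let b := Module.finBasis ℂ (Nsub n k A C)
  rw [← ker_Psi (by omega) b h_tri h_nil h_dens]
  rw [krullDim_range (Psi A.card b) (fun t => alg_X hn hAC b h_gen h_desc t)]
  congr 1
  rw [Fintype.card_sum, h_cnt, Fintype.card_fin, h_dim n k A C hAC, answer, add_comm]

end Pool.Agent.Q12.NV
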