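import Pool.Agent.Q12.NV.Stm

/-! Job NV-CNT. -/

set_option autoImplicit false

namespace Pool.Agent.Q12.NV

open scoped BigOperators

theorem cnt_aux (a m : ℕ) :
    ∑ j ∈ Finset.range m, (m + a - 1 - j) + a.choose 2 = (m + a).choose 2 := by
  induction m with
  | zero => simp
  | succ m ih =>
    rw [Finset.sum_range_succ']
    have h1 : ∀ j ∈ Finset.range m, m + 1 + a - 1 - (j + 1) = m + a - 1 - j := fun j _ => by omega
    have h4 : ∑ j ∈ Finset.range m, (m + 1 + a - 1 - (j + 1)) =
        ∑ j ∈ Finset.range m, (m + a - 1 - j) := Finset.sum_congr rfl h1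
    rw [h4]
    have h2 : (m + 1 + a).choose 2 = (m + a) + (m + a).choose 2 := by
      rw [show m + 1 + a = (m + a) + 1 by omega, Nat.choose_succ_succ' (m + a) 1, Nat.choose_one_right]
    rw [h2]
    omega

theorem s_cnt : S_cnt := by
  intro k a
  have h1 : Fintype.card {x : Fin k × Fin k // x.2 < x.1 ∧ (x.2 : ℕ) < k - a} =
      ∑ j ∈ Finset.range (k - a), (k - 1 - j) := by
    rw [Fintype.card_subtype]
    rw [Finset.card_filter]
    rw [Fintype.sum_prod_type_right]
    have h2 : ∀ j : Fin k, (∑ i : Fin k, if (j < i ∧ (j : ℕ) < k - a) then 1 else 0) =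
        if (j : ℕ) < k - a then k - 1 - (j : ℕ) else 0 := by
      intro j
      split_ifs with h
      · simp only [h, and_true]
        rw [← Finset.card_filter]
        have : (Finset.univ.filter fun i : Fin k => j < i) = Finset.Ioi j := by
          ext i
          simp
        rw [this, Fin.card_Ioi]
      · simp [h]
    simp only [h2]
    rw [Fin.sum_univ_eq_sum_range (fun j => if j < k - a then k - 1 - j else 0) k]
    rw [← Finset.sum_filter]
    refine Finset.sum_congr ?_ fun _ _ => rfl
    ext j
    simp only [Finset.mem_filter, Finset.mem_range]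
    omega
  rw [h1]
  rcases le_total a k with h | h
  · obtain ⟨m, rfl⟩ := Nat.exists_eq_add_of_le' h
    have h2 := cnt_aux a m
    rw [Nat.add_sub_cancel]
    omega
  · have h2 : k - a = 0 := by omega
    have h3 : k.choose 2 ≤ a.choose 2 := Nat.choose_le_choose 2 h
    rw [h2]
    simp
    omega

end Pool.Agent.Q12.NV
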