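import Pool.Agent.Q12.NV.Act

/-! Job NV-DENS: a polynomial vanishing on the orbit of the lower unipotent matrices vanishes on the
orbit of the general linear group. -/

set_option autoImplicit false

namespace Pool.Agent.Q12.NV

open scoped BigOperators
open Matrix

variable {n k : ℕ}

theorem adj_eq {h : Matrix (Fin k) (Fin k) ℂ} (hh : IsUnit h.det) : h.adjugate = h.det • h⁻¹ := by
  rw [Matrix.inv_def, smul_smul, Ring.mul_inverse_cancel _ hh, one_smul]

theorem act_adj {h : Matrix (Fin k) (Fin k) ℂ} (hh : IsUnit h.det) (c : Ten n k ℂ) :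
    act h h.adjugate c = act h h⁻¹ (h.det ^ n • c) := by
  rw [adj_eq hh, act_smul_right, act_smul]

theorem typ_smul {A C : Finset (Fin n)} {c : Ten n k ℂ} (h1 : Typ A C c) (h2 : Tri c) (r : ℂ) :
    Typ A C (r • c) ∧ Tri (r • c) := (Nsub n k A C).smul_mem r (x := c) ⟨h1, h2⟩

theorem dens_adj (hlu : S_lu) (hn : 1 ≤ n) (A C : Finset (Fin n))
    (f : MvPolynomial ((Fin n → Fin k) × Fin k) ℂ)
    (hf : ∀ (u : Matrix (Fin k) (Fin k) ℂ) (c : Ten n k ℂ), LowW A.card u → Typ A C c → Tri c →
      MvPolynomial.eval (act u u⁻¹ c) f = 0)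
    (h : Matrix (Fin k) (Fin k) ℂ) (c : Ten n k ℂ) (hc1 : Typ A C c) (hc2 : Tri c) :
    MvPolynomial.eval (act h h.adjugate c) f = 0 := by
  -- the polynomial family of matrices
  let H : Matrix (Fin k) (Fin k) (Polynomial ℂ) :=
    fun i j => Polynomial.C ((1 : Matrix (Fin k) (Fin k) ℂ) i j) +
      Polynomial.X * Polynomial.C (h i j - (1 : Matrix (Fin k) (Fin k) ℂ) i j)
  let Hs : ℂ → Matrix (Fin k) (Fin k) ℂ := fun s => H.map (Polynomial.evalRingHom s)
  have hHs : ∀ s i j, Hs s i j = (1 : Matrix (Fin k) (Fin k) ℂ) i j +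
      s * (h i j - (1 : Matrix (Fin k) (Fin k) ℂ) i j) := by
    intro s i j
    simp [Hs, H]
  have hH0 : Hs 0 = 1 := by
    ext i j
    rw [hHs]
    simp
  have hH1 : Hs 1 = h := by
    ext i j
    rw [hHs]
    ring
  let cP : Ten n k (Polynomial ℂ) := fun x => Polynomial.C (c x)
  let Q : Polynomial ℂ := MvPolynomial.aeval (act H H.adjugate cP) f
  have hQ : ∀ s, Q.eval s = MvPolynomial.eval (act (Hs s) (Hs s).adjugate c) f := by
    intro s
    have h1 := map_act (Polynomial.evalRingHom s) H H.adjugate cP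
    have h2 : (fun x => (Polynomial.evalRingHom s) (cP x) : Ten n k ℂ) = c := by
      funext x
      simp [cP]
    have h3 : H.adjugate.map (Polynomial.evalRingHom s) = (Hs s).adjugate :=
      RingHom.map_adjugate (Polynomial.evalRingHom s) H
    rw [h2, h3] at h1
    change _ = MvPolynomial.eval (act (H.map (Polynomial.evalRingHom s)) (Hs s).adjugate c) f
    rw [← h1]
    have h4 : (Polynomial.evalRingHom s).comp
        (MvPolynomial.aeval (act H H.adjugate cP) : _ →ₐ[ℂ] Polynomial ℂ).toRingHom =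
        MvPolynomial.eval (fun x => (Polynomial.evalRingHom s) (act H H.adjugate cP x)) := by
      apply MvPolynomial.ringHom_ext
      · intro r
        simp
      · intro i
        simp
    exact congrArg (fun g => g f) (congrArg DFunLike.coe h4)
  let D : Polynomial ℂ := ∏ m : Fin (k + 1), (lead H m (Nat.lt_succ_iff.1 m.2)).det
  have hD : ∀ s, D.eval s = ∏ m : Fin (k + 1), (lead (Hs s) m (Nat.lt_succ_iff.1 m.2)).det := by
    intro s
    have : D.eval s = (Polynomial.evalRingHom s) D := rfl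
    rw [this, map_prod]
    refine Finset.prod_congr rfl fun m _ => ?_
    rw [RingHom.map_det]
    rfl
  have hD0 : D ≠ 0 := by
    intro h0
    have h1 := hD 0
    rw [h0, Polynomial.eval_zero, hH0, Finset.prod_eq_one] at h1
    · exact zero_ne_one h1
    · intro m _
      have : lead (1 : Matrix (Fin k) (Fin k) ℂ) m (Nat.lt_succ_iff.1 m.2) = 1 :=
        Matrix.submatrix_one _ (Fin.castLE_injective _)
      rw [this, Matrix.det_one]
  have hQD : Q * D = 0 := by
    apply Polynomial.funext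
    intro s
    rw [Polynomial.eval_mul, Polynomial.eval_zero]
    by_cases hs : D.eval s = 0
    · rw [hs, mul_zero]
    · rw [hD, ← ne_eq, Finset.prod_ne_zero_iff] at hs
      have hs' : ∀ (m : ℕ) (hm : m ≤ k), (lead (Hs s) m hm).det ≠ 0 :=
        fun m hm => hs ⟨m, Nat.lt_succ_iff.2 hm⟩ (Finset.mem_univ _)
      have hu : IsUnit (Hs s).det := by
        have := hs' k le_rfl
        rw [isUnit_iff_ne_zero]
        exact this
      obtain ⟨h1, h2⟩ := typ_smul hc1 hc2 ((Hs s).det ^ n)
      obtain ⟨u, c', hu1, hu2, hu3, hu4⟩ := hlu n k hn A C _ h1 h2 (Hs s) hs'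
      rw [hQ, act_adj hu, hu4, hf u c' hu1 hu2 hu3, zero_mul]
  have hQ0 : Q = 0 := (mul_eq_zero.1 hQD).resolve_right hD0
  have h5 := hQ 1
  rw [hQ0, Polynomial.eval_zero, hH1] at h5
  exact h5.symm

theorem s_dens (hlu : S_lu) : S_dens := by
  intro n k hn A C f hf h c hh hc1 hc2
  obtain ⟨h1, h2⟩ := typ_smul hc1 hc2 ((h.det ^ n)⁻¹)
  have h3 := dens_adj hlu hn A C f hf h _ h1 h2
  rw [act_adj hh, smul_smul, mul_inv_cancel₀ (pow_ne_zero _ hh.ne_zero), one_smul] at h3
  exact h3

end Pool.Agent.Q12.NV
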