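import Pool.Agent.Q12.NV.Act

/-! Job NV-DESC: the coefficients of `u` lie in the field generated by the structure constants. -/

set_option autoImplicit false

namespace Pool.Agent.Q12.NV

open scoped BigOperators
open Matrix

variable {n k : ℕ}

/-- A retraction of `K` onto a subfield, linear over the subfield. -/
theorem exists_retraction {K : Type} [Field K] (K₀ : Subfield K) :
    ∃ π : K →+ K, (∀ s ∈ K₀, ∀ x, π (s * x) = s * π x) ∧ (∀ x, π x ∈ K₀) ∧ ∀ s ∈ K₀, π s = s := by
  obtain ⟨f, hf⟩ := LinearMap.exists_leftInverse_of_injective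
    (Algebra.linearMap K₀ K) (LinearMap.ker_eq_bot.2 (algebraMap K₀ K).injective)
  have hf' : ∀ s : K₀, f (s : K) = s := fun s => by
    have := congrArg (fun g => g s) hf
    exact this
  refine ⟨(K₀.subtype : K₀ →+ K).comp f.toAddMonoidHom, ?_, ?_, ?_⟩
  · intro s hs x
    have h1 : f (s * x) = (⟨s, hs⟩ : K₀) * f x := by
      have := f.map_smul (⟨s, hs⟩ : K₀) x
      rw [smul_eq_mul] at this
      exact this
    simp only [AddMonoidHom.comp_apply, LinearMap.toAddMonoidHom_coe]
    rw [h1]
    simp
  · intro x
    exact (f x).2
  · intro s hs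
    have := hf' ⟨s, hs⟩
    simp only [AddMonoidHom.comp_apply, LinearMap.toAddMonoidHom_coe]
    rw [show f s = (⟨s, hs⟩ : K₀) from this]
    rfl

variable {K : Type} [Field K]

theorem mul_update_single (c : Ten n k K) (J : Fin n → Fin k) (p : Fin n) (x : Fin k → K)
    (l : Fin k) :
    mul c (Function.update (fun q => Pi.single (J q) 1) p x) l =
      ∑ i, x i * c (Function.update J p i, l) := by
  unfold mul
  have h0 : ∀ I : Fin n → Fin k, (∏ q, Function.update (fun q => (Pi.single (J q) 1 : Fin k → K)) p x q (I q)) =
      if ∀ q, q ≠ p → I q = J q then x (I p) else 0 := by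
    intro I
    rw [← Finset.mul_prod_erase Finset.univ _ (Finset.mem_univ p), Function.update_self]
    split_ifs with h
    · rw [Finset.prod_eq_one, mul_one]
      intro q hq
      rw [Function.update_of_ne (Finset.ne_of_mem_erase hq), h q (Finset.ne_of_mem_erase hq)]
      simp
    · push Not at h
      obtain ⟨q, hq, hq'⟩ := h
      rw [Finset.prod_eq_zero (i := q) (Finset.mem_erase.2 ⟨hq, Finset.mem_univ q⟩), mul_zero]
      rw [Function.update_of_ne hq]
      simp [hq']
  simp only [h0, ite_mul, zero_mul]
  rw [← Finset.sum_filter]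
  refine Finset.sum_bij' (fun I _ => I p) (fun i _ => Function.update J p i) (fun _ _ => Finset.mem_univ _)
    ?_ ?_ ?_ ?_
  · intro i _
    rw [Finset.mem_filter]
    exact ⟨Finset.mem_univ _, fun q hq => by rw [Function.update_of_ne hq]⟩
  · intro I hI
    rw [Finset.mem_filter] at hI
    funext q
    by_cases hq : q = p
    · subst hq
      simp
    · rw [Function.update_of_ne hq, hI.2 q hq]
  · intro i _
    simp
  · intro I hI
    rw [Finset.mem_filter] at hI
    have : Function.update J p (I p) = I := by
      funext q
      by_cases hq : q = p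
      · subst hq
        simp
      · rw [Function.update_of_ne hq, hI.2 q hq]
    rw [this]

/-- `mul` with the `p`-th argument `x` lies in a submodule if the products of basis vectors and `x`
do. -/
theorem mul_mem (S : Submodule K (Fin k → K)) (c : Ten n k K) (p : Fin n) (x : Fin k → K)
    (i₀ : Fin k)
    (h : ∀ J : Fin n → Fin k, mul c (Function.update (fun q => Pi.single (J q) 1) p x) ∈ S)
    (y : Fin n → Fin k → K) : mul c (Function.update y p x) ∈ S := by
  have key : mul c (Function.update y p x) =
      ∑ g : {q // q ≠ p} → Fin k, (∏ q, y q.1 (g q)) •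
        mul c (Function.update (fun q => Pi.single ((Equiv.funSplitAt p (Fin k)).symm (i₀, g) q) 1)
          p x) := by
    funext l
    rw [Finset.sum_apply]
    simp only [Pi.smul_apply, mul_update_single, smul_eq_mul]
    unfold mul
    rw [← Fintype.sum_equiv (Equiv.funSplitAt p (Fin k)).symm
      (fun z => (∏ q, Function.update y p x q ((Equiv.funSplitAt p (Fin k)).symm z q)) *
        c ((Equiv.funSplitAt p (Fin k)).symm z, l)) _ (fun z => rfl)]
    rw [Fintype.sum_prod_type_right]
    refine Finset.sum_congr rfl fun g _ => ?_
    rw [Finset.mul_sum]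
    refine Finset.sum_congr rfl fun i _ => ?_
    have h1 : Function.update ((Equiv.funSplitAt p (Fin k)).symm (i₀, g)) p i =
        (Equiv.funSplitAt p (Fin k)).symm (i, g) := by
      funext q
      by_cases hq : q = p
      · subst hq
        simp [Equiv.funSplitAt]
      · rw [Function.update_of_ne hq]
        simp [Equiv.funSplitAt, Equiv.piSplitAt, hq]
    rw [h1]
    have h2 : (∏ q, Function.update y p x q ((Equiv.funSplitAt p (Fin k)).symm (i, g) q)) =
        x i * ∏ q : {q // q ≠ p}, y q.1 (g q) := by
      rw [← Finset.mul_prod_erase Finset.univ _ (Finset.mem_univ p), Function.update_self]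
      congr 1
      · congr 1
        simp [Equiv.funSplitAt, Equiv.piSplitAt]
      · rw [Finset.prod_subtype (Finset.univ.erase p) (p := fun q => q ≠ p) (by simp)]
        refine Finset.prod_congr rfl fun q _ => ?_
        rw [Function.update_of_ne q.2]
        congr 1
        simp [Equiv.funSplitAt, Equiv.piSplitAt, q.2]
    rw [h2]
    ring
  rw [key]
  exact S.sum_mem fun g _ => S.smul_mem _ (h _)

theorem det_low {a : ℕ} {u : Matrix (Fin k) (Fin k) K} (h : LowW a u) : u.det = 1 := by
  rw [Matrix.det_of_isLowerTriangular]
  · refine Finset.prod_eq_one fun i _ => ?_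
    rw [h i i (fun h' => lt_irrefl _ h'.1), if_pos rfl]
  · intro i j hij
    have hij' : i < j := hij
    rw [h i j (fun h' => lt_asymm h'.1 hij'), if_neg hij'.ne]

theorem s_desc : S_desc := by
  intro n k hn a K _ K₀ u c hlow htri hga hmem
  have hdet := det_low hlow
  have hunit : IsUnit u.det := by rw [hdet]; exact isUnit_one
  have hiu : u⁻¹ * u = 1 := Matrix.nonsing_inv_mul _ hunit
  have hui : u * u⁻¹ = 1 := Matrix.mul_nonsing_inv _ hunit
  obtain ⟨π, hπ1, hπ2, hπ3⟩ := exists_retraction K₀
  set lam := act u u⁻¹ c with hlam
  have hc : c = act u⁻¹ u lam := by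
    rw [hlam, act_act, hiu, act_one]
  suffices key : ∀ (m : ℕ) (j : Fin k), (j : ℕ) = m → ∀ i, u i j ∈ K₀ from
    fun i j => key j j rfl i
  intro m
  induction m using Nat.strong_induction_on with
  | _ m ih =>
  intro j hj i
  by_cases hja : (j : ℕ) < k - a
  swap
  · rw [hlow i j (fun h => hja h.2)]
    split_ifs
    · exact K₀.one_mem
    · exact K₀.zero_mem
  have ih' : ∀ t : Fin k, t < j → ∀ i, u i t ∈ K₀ := fun t ht =>
    ih t (by rw [← hj]; exact ht) t rfl
  let v : Fin k → K := fun i => u i j
  let v' : Fin k → K := fun i => π (v i)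
  let x : Fin k → K := u⁻¹ *ᵥ v'
  have hux : u *ᵥ x = v' := by
    simp only [x, Matrix.mulVec_mulVec, hui, Matrix.one_mulVec]
  have huv : u⁻¹ *ᵥ v = Pi.single j 1 := by
    have h1 : v = u *ᵥ Pi.single j 1 := by
      funext i
      simp [v, Matrix.mulVec_single]
    rw [h1, Matrix.mulVec_mulVec, hiu, Matrix.one_mulVec]
  let S : Submodule K (Fin k → K) :=
    { carrier := {z | ∀ l, j ≤ l → (u⁻¹ *ᵥ z) l = 0}
      add_mem' := fun {z w} hz hw l hl => by
        rw [Matrix.mulVec_add, Pi.add_apply, hz l hl, hw l hl, add_zero]
      zero_mem' := fun l _ => by rw [Matrix.mulVec_zero]; rfl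
      smul_mem' := fun r z hz l hl => by
        rw [Matrix.mulVec_smul, Pi.smul_apply, hz l hl, smul_zero] }
  have hx : ∀ (p : Fin n) (I : Fin n → Fin k) (l : Fin k), j ≤ l →
      ∑ i, x i * c (Function.update I p i, l) = 0 := by
    intro p I l hl
    rw [← mul_update_single, hc, mul_act]
    have h1 : (fun q => u *ᵥ Function.update (fun q => (Pi.single (I q) 1 : Fin k → K)) p x q) =
        Function.update (fun q => u *ᵥ (Pi.single (I q) 1 : Fin k → K)) p v' := by
      funext q
      by_cases hq : q = p
      · subst hq
        simp only [Function.update_self]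
        exact hux
      · simp only [Function.update_of_ne hq]
    rw [h1]
    have h2 : mul lam (Function.update (fun q => u *ᵥ (Pi.single (I q) 1 : Fin k → K)) p v') ∈ S := by
      refine mul_mem S lam p v' j (fun J => ?_) _
      -- z' = π z
      let w : Fin k → K := mul c (Function.update
        (fun q => u⁻¹ *ᵥ (Pi.single (J q) 1 : Fin k → K)) p (Pi.single j 1))
      have hw : ∀ t, j ≤ t → w t = 0 := by
        intro t ht
        refine Finset.sum_eq_zero fun J' _ => ?_
        by_cases hJ : J' p = j
        · by_cases hcz : c (J', t) = 0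
          · rw [hcz, mul_zero]
          · have := htri J' t hcz p
            rw [hJ] at this
            exact absurd this (not_lt.2 ht)
        · rw [Finset.prod_eq_zero (Finset.mem_univ p), zero_mul]
          simp [hJ]
      have hz : mul lam (Function.update (fun q => (Pi.single (J q) 1 : Fin k → K)) p v) =
          u *ᵥ w := by
        rw [hlam, mul_act]
        congr 2
        funext q
        by_cases hq : q = p
        · subst hq
          simp only [Function.update_self]
          exact huv
        · simp only [Function.update_of_ne hq]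
      have hz' : mul lam (Function.update (fun q => (Pi.single (J q) 1 : Fin k → K)) p v') =
          u *ᵥ (fun t => π (w t)) := by
        funext t
        have h3 := congrFun hz t
        rw [mul_update_single] at h3
        rw [mul_update_single]
        have h4 : ∀ i, v' i * lam (Function.update J p i, t) =
            π (v i * lam (Function.update J p i, t)) := by
          intro i
          rw [mul_comm (v i), hπ1 _ (hmem _), mul_comm]
        simp only [h4]
        rw [← map_sum, h3]
        simp only [Matrix.mulVec, dotProduct]
        rw [map_sum]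
        refine Finset.sum_congr rfl fun s _ => ?_
        by_cases hs : s < j
        · rw [hπ1 _ (ih' s hs t)]
        · rw [hw s (not_lt.1 hs)]
          simp
      intro l hl
      rw [hz', Matrix.mulVec_mulVec, hiu, Matrix.one_mulVec, hw l hl, map_zero]
    exact h2 l hl
  have hx0 := hga j hja x hx
  -- `v' = v`
  let y : Fin k → K := x - Pi.single j 1
  have huy : u *ᵥ y = v' - v := by
    simp only [y, Matrix.mulVec_sub, hux]
    congr 1
    funext i
    simp [v, Matrix.mulVec_single]
  have hyl : ∀ i, j < i → y i = 0 := by
    intro i hi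
    simp only [y, Pi.sub_apply, hx0 i hi, Pi.single_apply, if_neg hi.ne', sub_zero]
  have hvv : ∀ i, i ≤ j → v' i = v i := by
    intro i hi
    refine hπ3 _ ?_
    change u i j ∈ K₀
    rw [hlow i j (fun h => not_lt.2 hi h.1)]
    split_ifs
    · exact K₀.one_mem
    · exact K₀.zero_mem
  have hy : ∀ (m : ℕ) (i : Fin k), (i : ℕ) = m → y i = 0 := by
    intro m
    induction m using Nat.strong_induction_on with
    | _ m ihm =>
    intro i hi
    by_cases hij : j < i
    · exact hyl i hij
    · have h1 := congrFun huy i
      rw [Pi.sub_apply, hvv i (not_lt.1 hij), sub_self] at h1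
      simp only [Matrix.mulVec, dotProduct] at h1
      rw [Finset.sum_eq_single i] at h1
      · rw [hlow i i (fun h => lt_irrefl _ h.1), if_pos rfl, one_mul] at h1
        exact h1
      · intro t _ ht
        rcases lt_or_gt_of_ne ht with h2 | h2
        · rw [ihm t (by rw [← hi]; exact h2) t rfl, mul_zero]
        · rw [hlow i t (fun h => lt_asymm h.1 h2), if_neg h2.ne, zero_mul]
      · intro h
        exact absurd (Finset.mem_univ i) h
  have hy0 : y = 0 := funext fun i => hy i i rfl
  rw [hy0, Matrix.mulVec_zero] at huy
  have : v' i = v i := by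
    have := congrFun huy i
    simp only [Pi.zero_apply, Pi.sub_apply] at this
    exact sub_eq_zero.1 this.symm
  change v i ∈ K₀
  rw [← this]
  exact hπ2 _

end Pool.Agent.Q12.NV
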