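import Pool.Agent.Q12.NV.Ex

/-! Job NV-DIM: the dimension of the space of the strictly triangular structures. -/

set_option autoImplicit false

namespace Pool.Agent.Q12.NV

open scoped BigOperators

variable {n : ℕ} {M : Type}

/-- Functions with the symmetry. -/
def VM (A C : Finset (Fin n)) (M : Type) : Submodule ℂ ((Fin n → M) → ℂ) where
  carrier := {f | (∀ i ∈ A, ∀ j ∈ A, i ≠ j → ∀ J : Fin n → M, f (J ∘ Equiv.swap i j) = - f J) ∧
    ∀ i ∈ C, ∀ j ∈ C, ∀ J : Fin n → M, f (J ∘ Equiv.swap i j) = f J}
  zero_mem' := ⟨fun _ _ _ _ _ _ => by simp, fun _ _ _ _ _ => by simp⟩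
  add_mem' := by
    rintro f g ⟨hf1, hf2⟩ ⟨hg1, hg2⟩
    refine ⟨fun i hi j hj hij J => ?_, fun i hi j hj J => ?_⟩
    · rw [Pi.add_apply, Pi.add_apply, hf1 i hi j hj hij, hg1 i hi j hj hij, neg_add]
    · rw [Pi.add_apply, Pi.add_apply, hf2 i hi j hj, hg2 i hi j hj]
  smul_mem' := by
    rintro r f ⟨hf1, hf2⟩
    refine ⟨fun i hi j hj hij J => ?_, fun i hi j hj J => ?_⟩
    · rw [Pi.smul_apply, Pi.smul_apply, hf1 i hi j hj hij, smul_neg]
    · rw [Pi.smul_apply, Pi.smul_apply, hf2 i hi j hj]

/-- A function invariant under the swaps in `D` depends only on the values off `D` and on the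
multiset of the values on `D`. -/
theorem eq_of_multiset [DecidableEq M] {β : Type} (D : Finset (Fin n)) (P : (Fin n → M) → Prop)
    (hP : ∀ i ∈ D, ∀ j ∈ D, ∀ J, P J → P (J ∘ Equiv.swap i j)) (g : (Fin n → M) → β)
    (hg : ∀ i ∈ D, ∀ j ∈ D, i ≠ j → ∀ J, P J → g (J ∘ Equiv.swap i j) = g J) (J' : Fin n → M) :
    ∀ (N : ℕ) (J : Fin n → M), (D.filter fun q => J q ≠ J' q).card = N → P J →
      (∀ q, q ∉ D → J q = J' q) → D.val.map J = D.val.map J' → g J = g J' := by
  intro N
  induction N using Nat.strong_induction_on with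
  | _ N ih =>
  intro J hN hPJ hoff hmul
  by_cases h0 : ∃ q ∈ D, J q ≠ J' q
  swap
  · push Not at h0
    have : J = J' := funext fun q => by
      by_cases hq : q ∈ D
      · exact h0 q hq
      · exact hoff q hq
    rw [this]
  obtain ⟨q, hq, hne⟩ := h0
  -- a position with the value `J' q` under `J` but not under `J'`
  have hex : ∃ q' ∈ D, J q' = J' q ∧ J' q' ≠ J' q := by
    by_contra hno
    push Not at hno
    have hc : ∀ K : Fin n → M, (D.val.map K).count (J' q) = (D.filter fun r => K r = J' q).card := by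
      intro K
      rw [Multiset.count_map]
      have : (D.filter fun r => K r = J' q).card =
          Multiset.card (Multiset.filter (fun r => K r = J' q) D.val) := rfl
      rw [this]
      congr 1
      exact Multiset.filter_congr fun r _ => eq_comm
    have h1 := hc J
    rw [hmul, hc J'] at h1
    have h2 : (D.filter fun r => J r = J' q) ⊂ (D.filter fun r => J' r = J' q) := by
      rw [Finset.ssubset_iff_of_subset]
      · exact ⟨q, Finset.mem_filter.2 ⟨hq, rfl⟩, fun h => hne (Finset.mem_filter.1 h).2⟩
      · intro r hr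
        rw [Finset.mem_filter] at hr ⊢
        exact ⟨hr.1, hno r hr.1 hr.2⟩
    exact absurd h1 (Finset.card_lt_card h2).ne'
  obtain ⟨q', hq', h1, h2⟩ := hex
  have hqq : q ≠ q' := by
    rintro rfl
    exact h2 rfl
  have hstep : g (J ∘ Equiv.swap q q') = g J := hg q hq q' hq' hqq J hPJ
  rw [← hstep]
  have hJ1 : (J ∘ Equiv.swap q q') q = J' q := by
    rw [Function.comp_apply, Equiv.swap_apply_left, h1]
  have hJ2 : (J ∘ Equiv.swap q q') q' = J q := by
    rw [Function.comp_apply, Equiv.swap_apply_right]
  have hJ3 : ∀ r, r ≠ q → r ≠ q' → (J ∘ Equiv.swap q q') r = J r := by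
    intro r h3 h4
    rw [Function.comp_apply, Equiv.swap_apply_of_ne_of_ne h3 h4]
  refine ih _ ?_ (J ∘ Equiv.swap q q') rfl (hP q hq q' hq' J hPJ) ?_ ?_
  · rw [← hN]
    apply Finset.card_lt_card
    rw [Finset.ssubset_iff_of_subset]
    · refine ⟨q, Finset.mem_filter.2 ⟨hq, hne⟩, fun h => ?_⟩
      exact (Finset.mem_filter.1 h).2 hJ1
    · intro r hr
      rw [Finset.mem_filter] at hr ⊢
      refine ⟨hr.1, fun h3 => hr.2 ?_⟩
      by_cases h4 : r = q
      · rw [h4]; exact hJ1
      · by_cases h5 : r = q'
        · subst h5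
          exact absurd (h3.symm.trans h1) h2
        · rw [hJ3 r h4 h5, h3]
  · intro r hr
    rw [hJ3 r (fun h => hr (h ▸ hq)) (fun h => hr (h ▸ hq'))]
    exact hoff r hr
  · rw [← hmul]
    have h5 : D.val.map (J ∘ Equiv.swap q q') = (D.val.map (Equiv.swap q q')).map J :=
      (Multiset.map_map _ _ _).symm
    rw [h5]
    congr 1
    have h6 : (D.map (Equiv.swap q q').toEmbedding) = D := by
      ext r
      rw [Finset.mem_map_equiv, Equiv.symm_swap]
      by_cases h3 : r = q
      · subst h3; rw [Equiv.swap_apply_left]; exact ⟨fun _ => hq, fun _ => hq'⟩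
      · by_cases h4 : r = q'
        · subst h4; rw [Equiv.swap_apply_right]; exact ⟨fun _ => hq', fun _ => hq⟩
        · rw [Equiv.swap_apply_of_ne_of_ne h3 h4]
    exact congrArg Finset.val h6

section rep

variable [Fintype M] [DecidableEq M]

/-- the Vandermonde determinant of the values on `A` -/
noncomputable def wd (A : Finset (Fin n)) (J : Fin n → M) : ℂ := vd A (Fintype.equivFin M ∘ J)

theorem wd_ne (A : Finset (Fin n)) (J : Fin n → M) (h : Set.InjOn J A) : wd A J ≠ 0 :=
  vd_ne A _ fun _ hx _ hy hxy => h hx hy ((Fintype.equivFin M).injective hxy)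

theorem wd_swap (A : Finset (Fin n)) (J : Fin n → M) {i j : Fin n} (hi : i ∈ A) (hj : j ∈ A)
    (hij : i ≠ j) : wd A (J ∘ Equiv.swap i j) = - wd A J := by
  unfold wd
  rw [← Function.comp_assoc]
  exact vd_swap A _ hi hj hij

theorem wd_swap_out (A : Finset (Fin n)) (J : Fin n → M) {i j : Fin n} (hi : i ∉ A)
    (hj : j ∉ A) : wd A (J ∘ Equiv.swap i j) = wd A J := by
  unfold wd
  rw [← Function.comp_assoc]
  exact vd_swap_out A _ hi hj

/-- The index set of the basis. -/
abbrev TT (A C : Finset (Fin n)) (M : Type) : Type :=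
  {S : Finset M // S.card = A.card} × Sym M C.card × ({q : Fin n // q ∉ A ∧ q ∉ C} → M)

/-- The class of a tuple. -/
def kap (A C : Finset (Fin n)) (J : Fin n → M) (h : Set.InjOn J A) : TT A C M :=
  (⟨A.image J, Finset.card_image_of_injOn h⟩, ⟨C.val.map J, by simp⟩, fun q => J q.1)

theorem exists_rep {A C : Finset (Fin n)} (hAC : Disjoint A C) (t : TT A C M) :
    ∃ (J : Fin n → M) (h : Set.InjOn J A), kap A C J h = t := by
  obtain ⟨⟨S, hS⟩, ⟨s, hs⟩, r⟩ := t
  let e : A ≃ S := Finset.equivOfCardEq hS.symm
  obtain ⟨g, hg⟩ : ∃ g : C → M, (Finset.univ : Finset C).val.map g = s := by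
    induction s using Quotient.inductionOn with
    | _ L =>
    have hL : L.length = C.card := hs
    let e' : C ≃ Fin L.length := (C.equivFin).trans (finCongr hL.symm)
    refine ⟨fun x => L.get (e' x), ?_⟩
    have h1 : (Finset.univ : Finset C).val.map (fun x => L.get (e' x)) =
        (Finset.univ : Finset (Fin L.length)).val.map L.get := by
      have h2 : (Finset.univ : Finset C).map e'.toEmbedding = Finset.univ :=
        Finset.map_univ_equiv e'
      rw [← h2, Finset.map_val, Multiset.map_map]
      rfl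
    rw [h1, Fin.univ_val_map, List.ofFn_get]
    rfl
  let J : Fin n → M := fun q => if h : q ∈ A then (e ⟨q, h⟩).1 else
    if h' : q ∈ C then g ⟨q, h'⟩ else r ⟨q, h, h'⟩
  have hJA : ∀ (q : Fin n) (h : q ∈ A), J q = (e ⟨q, h⟩).1 := fun q h => dif_pos h
  have hJC : ∀ (q : Fin n) (h : q ∈ C), J q = g ⟨q, h⟩ := fun q h => by
    have h1 : q ∉ A := fun h' => Finset.disjoint_left.1 hAC h' h
    simp only [J, dif_neg h1, dif_pos h]
  have hinj : Set.InjOn J A := by
    intro q hq q' hq' hqq
    rw [hJA q hq, hJA q' hq'] at hqq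
    exact congrArg Subtype.val (e.injective (Subtype.ext hqq))
  refine ⟨J, hinj, ?_⟩
  unfold kap
  refine Prod.ext (Subtype.ext ?_) (Prod.ext (Subtype.ext ?_) ?_)
  · ext y
    rw [Finset.mem_image]
    constructor
    · rintro ⟨q, hq, rfl⟩
      rw [hJA q hq]
      exact (e ⟨q, hq⟩).2
    · intro hy
      refine ⟨(e.symm ⟨y, hy⟩).1, (e.symm ⟨y, hy⟩).2, ?_⟩
      rw [hJA _ (e.symm ⟨y, hy⟩).2]
      simp
  · change C.val.map J = s
    rw [← hg, ← Multiset.attach_map_val' C.val J]
    refine Multiset.map_congr rfl fun x _ => ?_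
    exact hJC x.1 x.2
  · funext q
    change J q.1 = r q
    simp only [J, dif_neg q.2.1, dif_neg q.2.2]

/-- Invariant functions take equal values at tuples of the same class. -/
theorem eq_of_kap {β : Type} {A C : Finset (Fin n)} (hAC : Disjoint A C) (g : (Fin n → M) → β)
    (hgA : ∀ i ∈ A, ∀ j ∈ A, i ≠ j → ∀ J, Set.InjOn J A → g (J ∘ Equiv.swap i j) = g J)
    (hgC : ∀ i ∈ C, ∀ j ∈ C, i ≠ j → ∀ J, Set.InjOn J A → g (J ∘ Equiv.swap i j) = g J)
    {J J' : Fin n → M} (h : Set.InjOn J A) (h' : Set.InjOn J' A) (hk : kap A C J h = kap A C J' h') :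
    g J = g J' := by
  have hA : ∀ i ∈ A, ∀ j ∈ A, ∀ J : Fin n → M, Set.InjOn J A →
      Set.InjOn (J ∘ Equiv.swap i j) A := by
    intro i hi j hj J hJ x hx y hy hxy
    have hs : ∀ z ∈ A, Equiv.swap i j z ∈ A := by
      intro z hz
      by_cases h3 : z = i
      · subst h3; rwa [Equiv.swap_apply_left]
      · by_cases h4 : z = j
        · subst h4; rwa [Equiv.swap_apply_right]
        · rwa [Equiv.swap_apply_of_ne_of_ne h3 h4]
    exact (Equiv.swap i j).injective (hJ (hs x hx) (hs y hy) hxy)
  have hC : ∀ i ∈ C, ∀ j ∈ C, ∀ J : Fin n → M, Set.InjOn J A →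
      Set.InjOn (J ∘ Equiv.swap i j) A := by
    intro i hi j hj J hJ x hx y hy hxy
    have hi' : i ∉ A := fun h => Finset.disjoint_left.1 hAC h hi
    have hj' : j ∉ A := fun h => Finset.disjoint_left.1 hAC h hj
    rw [Function.comp_apply, Function.comp_apply, swap_out hi' hj' hx, swap_out hi' hj' hy] at hxy
    exact hJ hx hy hxy
  unfold kap at hk
  rw [Prod.mk.injEq, Prod.mk.injEq, Subtype.mk.injEq] at hk
  obtain ⟨hk1, hk2, hk3⟩ := hk
  have hk2' : C.val.map J = C.val.map J' := congrArg Subtype.val hk2
  let J₁ : Fin n → M := fun q => if q ∈ A then J' q else J q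
  have hJ1 : ∀ q ∈ A, J₁ q = J' q := fun q hq => if_pos hq
  have hJ1' : ∀ q, q ∉ A → J₁ q = J q := fun q hq => if_neg hq
  have hinj1 : Set.InjOn J₁ A := by
    intro x hx y hy hxy
    rw [hJ1 x hx, hJ1 y hy] at hxy
    exact h' hx hy hxy
  have s1 : g J = g J₁ := by
    refine eq_of_multiset A (fun J => Set.InjOn J A) hA g hgA J₁ _ J rfl h
      (fun q hq => (hJ1' q hq).symm) ?_
    have h1 : A.val.map J₁ = A.val.map J' := Multiset.map_congr rfl fun q hq => hJ1 q hq
    rw [h1, ← Finset.image_val_of_injOn h, ← Finset.image_val_of_injOn h', hk1]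
  have s2 : g J₁ = g J' := by
    refine eq_of_multiset C (fun J => Set.InjOn J A) hC g hgC J' _ J₁ rfl hinj1 ?_ ?_
    · intro q hq
      by_cases hqA : q ∈ A
      · exact hJ1 q hqA
      · rw [hJ1' q hqA]
        exact congrFun hk3 ⟨q, hqA, hq⟩
    · rw [← hk2']
      exact Multiset.map_congr rfl fun q hq =>
        hJ1' q fun hqA => Finset.disjoint_left.1 hAC hqA hq
  rw [s1, s2]

theorem finrank_VM {A C : Finset (Fin n)} (hAC : Disjoint A C) :
    Module.finrank ℂ (VM A C M) = (Fintype.card M).choose A.card *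
      (Fintype.card M).multichoose C.card * (Fintype.card M) ^ (n - A.card - C.card) := by
  classical
  choose rep hrep1 hrep2 using fun t : TT A C M => exists_rep hAC t
  let Φ : VM A C M →ₗ[ℂ] (TT A C M → ℂ) :=
    { toFun := fun f t => f.1 (rep t)
      map_add' := fun f g => rfl
      map_smul' := fun r f => rfl }
  have hswA : ∀ i ∈ A, ∀ j ∈ A, ∀ J : Fin n → M,
      Set.InjOn (J ∘ Equiv.swap i j) A ↔ Set.InjOn J A := by
    intro i hi j hj
    have hs : ∀ z ∈ A, Equiv.swap i j z ∈ A := by
      intro z hz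
      by_cases h3 : z = i
      · subst h3; rwa [Equiv.swap_apply_left]
      · by_cases h4 : z = j
        · subst h4; rwa [Equiv.swap_apply_right]
        · rwa [Equiv.swap_apply_of_ne_of_ne h3 h4]
    have h1 : ∀ J : Fin n → M, Set.InjOn J A → Set.InjOn (J ∘ Equiv.swap i j) A :=
      fun J hJ x hx y hy hxy => (Equiv.swap i j).injective (hJ (hs x hx) (hs y hy) hxy)
    intro J
    refine ⟨fun h => ?_, h1 J⟩
    have := h1 _ h
    rwa [Function.comp_assoc, ← Equiv.coe_trans, Equiv.swap_swap, Equiv.coe_refl,
      Function.comp_id] at this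
  have hoff : ∀ i ∈ C, i ∉ A := fun i hi h => Finset.disjoint_left.1 hAC h hi
  have hswC : ∀ i ∈ C, ∀ j ∈ C, ∀ J : Fin n → M,
      Set.InjOn (J ∘ Equiv.swap i j) A ↔ Set.InjOn J A := by
    intro i hi j hj J
    refine Set.EqOn.injOn_iff fun x hx => ?_
    rw [Function.comp_apply, swap_out (hoff i hi) (hoff j hj) hx]
  have hinj : Function.Injective Φ := by
    rw [injective_iff_map_eq_zero]
    intro f hf
    apply Subtype.ext
    funext J
    by_cases hJ : Set.InjOn J A
    · have h1 := eq_of_kap hAC (fun J => f.1 J / wd A J)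
        (fun i hi j hj hij J hJ => by
          simp only [f.2.1 i hi j hj hij, wd_swap A J hi hj hij, neg_div_neg_eq])
        (fun i hi j hj _ J hJ => by
          simp only [f.2.2 i hi j hj, wd_swap_out A J (hoff i hi) (hoff j hj)])
        hJ (hrep1 (kap A C J hJ)) (hrep2 (kap A C J hJ)).symm
      have h2 : f.1 (rep (kap A C J hJ)) = 0 := congrFun hf _
      simp only [h2, zero_div] at h1
      have h3 := (div_eq_zero_iff.1 h1).resolve_right (wd_ne A J hJ)
      exact h3
    · have : ∃ i ∈ A, ∃ j ∈ A, i ≠ j ∧ J i = J j := by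
        by_contra hno
        push Not at hno
        apply hJ
        intro x hx y hy hxy
        by_contra hne
        exact hno x hx y hy hne hxy
      obtain ⟨i, hi, j, hj, hij, hJij⟩ := this
      have h1 := f.2.1 i hi j hj hij J
      have h2 : J ∘ Equiv.swap i j = J := by
        funext q
        rw [Function.comp_apply]
        by_cases hqi : q = i
        · subst hqi
          rw [Equiv.swap_apply_left, hJij]
        · by_cases hqj : q = j
          · subst hqj
            rw [Equiv.swap_apply_right, hJij]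
          · rw [Equiv.swap_apply_of_ne_of_ne hqi hqj]
      rw [h2] at h1
      have h3 : (2 : ℂ) * f.1 J = 0 := by linear_combination h1
      have h4 : f.1 J = 0 := by simpa using h3
      exact h4
  have hsurj : Function.Surjective Φ := by
    intro F
    let f : (Fin n → M) → ℂ := fun J =>
      if h : Set.InjOn J A then wd A J * (F (kap A C J h) / wd A (rep (kap A C J h))) else 0
    have hfi : ∀ (J : Fin n → M) (h : Set.InjOn J A),
        f J = wd A J * (F (kap A C J h) / wd A (rep (kap A C J h))) := fun J h => dif_pos h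
    have hfn : ∀ J : Fin n → M, ¬ Set.InjOn J A → f J = 0 := fun J h => dif_neg h
    have hk : ∀ (D : Finset (Fin n)), (D = A ∨ D = C) → ∀ i ∈ D, ∀ j ∈ D, ∀ (J : Fin n → M)
        (h : Set.InjOn J A) (h' : Set.InjOn (J ∘ Equiv.swap i j) A),
        kap A C (J ∘ Equiv.swap i j) h' = kap A C J h := by
      intro D hD i hi j hj J h h'
      have hm : ∀ E : Finset (Fin n), (E = A ∨ E = C) →
          E.val.map (J ∘ Equiv.swap i j) = E.val.map J := by
        intro E hE
        by_cases hED : E = D
        · subst hED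
          have h5 : E.val.map (J ∘ Equiv.swap i j) = (E.val.map (Equiv.swap i j)).map J :=
            (Multiset.map_map _ _ _).symm
          rw [h5]
          congr 1
          have h6 : (E.map (Equiv.swap i j).toEmbedding) = E := by
            ext r
            rw [Finset.mem_map_equiv, Equiv.symm_swap]
            by_cases h3 : r = i
            · subst h3; rw [Equiv.swap_apply_left]; exact ⟨fun _ => hi, fun _ => hj⟩
            · by_cases h4 : r = j
              · subst h4; rw [Equiv.swap_apply_right]; exact ⟨fun _ => hj, fun _ => hi⟩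
              · rw [Equiv.swap_apply_of_ne_of_ne h3 h4]
          exact congrArg Finset.val h6
        · have hdis : Disjoint E D := by
            rcases hE with rfl | rfl <;> rcases hD with rfl | rfl
            · exact absurd rfl hED
            · exact hAC
            · exact hAC.symm
            · exact absurd rfl hED
          refine Multiset.map_congr rfl fun x hx => ?_
          have hx' : x ∈ E := hx
          rw [Function.comp_apply, swap_out (fun h => Finset.disjoint_left.1 hdis h hi)
            (fun h => Finset.disjoint_left.1 hdis h hj) hx']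
      unfold kap
      refine Prod.ext (Subtype.ext ?_) (Prod.ext (Subtype.ext ?_) ?_)
      · apply Finset.val_injective
        change (A.image (J ∘ Equiv.swap i j)).val = (A.image J).val
        rw [Finset.image_val_of_injOn h, Finset.image_val_of_injOn h', hm A (Or.inl rfl)]
      · exact hm C (Or.inr rfl)
      · funext q
        change J (Equiv.swap i j q.1) = J q.1
        have hqD : q.1 ∉ D := by
          rcases hD with rfl | rfl
          · exact q.2.1
          · exact q.2.2
        rw [swap_in hi hj hqD]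
    refine ⟨⟨f, ?_, ?_⟩, ?_⟩
    · intro i hi j hj hij J
      by_cases h : Set.InjOn J A
      · have h' := (hswA i hi j hj J).2 h
        rw [hfi J h, hfi _ h', hk A (Or.inl rfl) i hi j hj J h h', wd_swap A J hi hj hij]
        ring
      · have h' : ¬ Set.InjOn (J ∘ Equiv.swap i j) A := fun h1 => h ((hswA i hi j hj J).1 h1)
        rw [hfn J h, hfn _ h', neg_zero]
    · intro i hi j hj J
      by_cases h : Set.InjOn J A
      · have h' := (hswC i hi j hj J).2 h
        rw [hfi J h, hfi _ h', hk C (Or.inr rfl) i hi j hj J h h',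
          wd_swap_out A J (hoff i hi) (hoff j hj)]
      · have h' : ¬ Set.InjOn (J ∘ Equiv.swap i j) A := fun h1 => h ((hswC i hi j hj J).1 h1)
        rw [hfn J h, hfn _ h']
    · funext t
      change f (rep t) = F t
      rw [hfi _ (hrep1 t), hrep2 t]
      field_simp [wd_ne A _ (hrep1 t)]
  have h1 := (LinearEquiv.ofBijective Φ ⟨hinj, hsurj⟩).finrank_eq
  rw [h1, Module.finrank_fintype_fun_eq_card, Fintype.card_prod, Fintype.card_prod,
    Fintype.card_finset_len, Sym.card_sym_eq_multichoose, Fintype.card_fun]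
  have h2 : Fintype.card {q : Fin n // q ∉ A ∧ q ∉ C} = n - A.card - C.card := by
    have h3 : Fintype.card {q : Fin n // q ∉ A ∧ q ∉ C} = ((A ∪ C)ᶜ).card := by
      rw [Fintype.card_subtype]
      congr 1
      ext q
      simp
    rw [h3, Finset.card_compl, Finset.card_union_of_disjoint hAC, Fintype.card_fin, Nat.sub_sub]
  rw [h2, mul_assoc]

end rep

/-- Triangular structures are families of functions with the symmetry. -/
noncomputable def nsubEquiv (n k : ℕ) (A C : Finset (Fin n)) :
    Nsub n k A C ≃ₗ[ℂ] ((l : Fin k) → VM A C {x : Fin k // l < x}) where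
  toFun c l := ⟨fun J => c.1 (fun p => (J p).1, l),
    fun i hi j hj hij J => c.2.1.1 i hi j hj hij (fun p => (J p).1) l,
    fun i hi j hj J => c.2.1.2 i hi j hj (fun p => (J p).1) l⟩
  map_add' c d := rfl
  map_smul' r c := rfl
  invFun f := ⟨fun x => if h : ∀ p, x.2 < x.1 p then (f x.2).1 (fun p => ⟨x.1 p, h p⟩) else 0, by
    refine ⟨⟨fun i hi j hj hij J l => ?_, fun i hi j hj J l => ?_⟩, fun J l hne p => ?_⟩
    · by_cases h : ∀ p, l < J p
      · have h' : ∀ p, l < (J ∘ Equiv.swap i j) p := fun p => h _
        simp only [dif_pos h, dif_pos h']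
        exact (f l).2.1 i hi j hj hij (fun p => ⟨J p, h p⟩)
      · have h' : ¬ ∀ p, l < (J ∘ Equiv.swap i j) p := fun h1 => h fun p => by
          have := h1 (Equiv.swap i j p)
          simpa using this
        simp only [dif_neg h, dif_neg h', neg_zero]
    · by_cases h : ∀ p, l < J p
      · have h' : ∀ p, l < (J ∘ Equiv.swap i j) p := fun p => h _
        simp only [dif_pos h, dif_pos h']
        exact (f l).2.2 i hi j hj (fun p => ⟨J p, h p⟩)
      · have h' : ¬ ∀ p, l < (J ∘ Equiv.swap i j) p := fun h1 => h fun p => by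
          have := h1 (Equiv.swap i j p)
          simpa using this
        simp only [dif_neg h, dif_neg h']
    · by_contra hp
      have h : ¬ ∀ p, l < J p := fun h => hp (h p)
      exact hne (dif_neg h)⟩
  left_inv c := by
    apply Subtype.ext
    funext x
    by_cases h : ∀ p, x.2 < x.1 p
    · simp only [dif_pos h]
    · simp only [dif_neg h]
      by_contra hne
      exact h (c.2.2 x.1 x.2 fun h0 => hne h0.symm)
  right_inv f := by
    funext l
    apply Subtype.ext
    funext J
    have h : ∀ p, l < (J p).1 := fun p => (J p).2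
    simp only [dif_pos h]

theorem s_dim : S_dim := by
  intro n k A C hAC
  rw [(nsubEquiv n k A C).finrank_eq, Module.finrank_pi_fintype]
  have h1 : ∀ l : Fin k, Module.finrank ℂ (VM A C {x : Fin k // l < x}) =
      (k - 1 - (l : ℕ)).choose A.card * (k - 1 - (l : ℕ)).multichoose C.card *
        (k - 1 - (l : ℕ)) ^ (n - A.card - C.card) := by
    intro l
    rw [finrank_VM hAC]
    have : Fintype.card {x : Fin k // l < x} = k - 1 - (l : ℕ) := by
      rw [Fintype.card_subtype]
      have : (Finset.univ.filter fun i : Fin k => l < i) = Finset.Ioi l := by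
        ext i
        simp
      rw [this, Fin.card_Ioi]
    rw [this]
  simp only [h1]
  rw [Fin.sum_univ_eq_sum_range (fun l => (k - 1 - l).choose A.card *
    (k - 1 - l).multichoose C.card * (k - 1 - l) ^ (n - A.card - C.card)) k]
  exact Finset.sum_range_reflect (fun m => m.choose A.card * m.multichoose C.card *
    m ^ (n - A.card - C.card)) k

end Pool.Agent.Q12.NV
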