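import Pool.Agent.Q12.NV.Act

/-! Job NV-EX: the explicit example with nonzero determinants. -/

set_option autoImplicit false

namespace Pool.Agent.Q12.NV

open scoped BigOperators
open Matrix

variable {n k : ℕ}

/-- The case of an empty set `A`. -/
theorem ex_zero (hn : 2 ≤ n) (C : Finset (Fin n)) :
    ∃ c : Ten n k ℂ, Typ ∅ C c ∧ Tri c ∧ ∀ j : Fin k, (j : ℕ) < k - 0 →
    ∃ (p : {i : Fin k // j < i} → Fin n) (I : {i : Fin k // j < i} → Fin n → Fin k)
      (l : {i : Fin k // j < i} → Fin k), (∀ i, j ≤ l i) ∧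
      (Matrix.of fun i i' : {i : Fin k // j < i} =>
        c (Function.update (I i) (p i) i'.1, l i)).det ≠ 0 := by
  classical
  let c : Ten n k ℂ := fun x => if ∀ p, (x.1 p : ℕ) = x.2 + 1 then 1 else 0
  refine ⟨c, ⟨fun i hi => absurd hi (Finset.notMem_empty i), ?_⟩, ?_, ?_⟩
  · intro i _ j _ J l
    have h : (∀ p, ((J ∘ Equiv.swap i j) p : ℕ) = l + 1) ↔ ∀ p, (J p : ℕ) = l + 1 :=
      ⟨fun h p => by simpa using h (Equiv.swap i j p), fun h p => h _⟩
    simp only [c, h]
  · intro J l hJ p
    have h : ∀ p, (J p : ℕ) = l + 1 := by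
      by_contra h
      exact hJ (if_neg h)
    rw [Fin.lt_def, h p]
    omega
  · intro j _
    have h0 : ∀ i : {i : Fin k // j < i}, (i.1 : ℕ) - 1 < k := fun i => by
      have := i.1.2
      omega
    refine ⟨fun _ => ⟨0, by omega⟩, fun i _ => i.1, fun i => ⟨i.1 - 1, h0 i⟩, ?_, ?_⟩
    · intro i
      have h1 : (j : ℕ) < (i.1 : ℕ) := i.2
      rw [Fin.le_def]
      change (j : ℕ) ≤ (i.1 : ℕ) - 1
      omega
    · have h1 : (Matrix.of fun i i' : {i : Fin k // j < i} =>
          c (Function.update (fun _ : Fin n => i.1) ⟨0, by omega⟩ i'.1, ⟨i.1 - 1, h0 i⟩)) = 1 := by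
        ext i i'
        have hi : (j : ℕ) < (i.1 : ℕ) := i.2
        rw [Matrix.of_apply, Matrix.one_apply]
        by_cases h : i = i'
        · subst h
          rw [if_pos rfl, Function.update_eq_self]
          refine if_pos fun p => ?_
          change (i.1 : ℕ) = (i.1 : ℕ) - 1 + 1
          omega
        · rw [if_neg h]
          refine if_neg fun h2 => h ?_
          have h3 := h2 ⟨0, by omega⟩
          simp only [Function.update_self] at h3
          apply Subtype.ext
          apply Fin.ext
          omega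
      rw [h1, Matrix.det_one]
      exact one_ne_zero

/-- the Vandermonde determinant of the values on `A` -/
noncomputable def vd (A : Finset (Fin n)) (J : Fin n → Fin k) : ℂ :=
  (Matrix.vandermonde (fun r : Fin A.card => ((J (A.orderEmbOfFin rfl r) : ℕ) : ℂ))).det

theorem vd_ne (A : Finset (Fin n)) (J : Fin n → Fin k) (h : Set.InjOn J A) : vd A J ≠ 0 := by
  unfold vd
  rw [Matrix.det_vandermonde_ne_zero_iff]
  intro r s hrs
  have h1 : ((J (A.orderEmbOfFin rfl r) : ℕ) : ℂ) = ((J (A.orderEmbOfFin rfl s) : ℕ) : ℂ) := hrs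
  have h2 : J (A.orderEmbOfFin rfl r) = J (A.orderEmbOfFin rfl s) := Fin.ext (by exact_mod_cast h1)
  exact (A.orderEmbOfFin rfl).injective
    (h (A.orderEmbOfFin_mem rfl r) (A.orderEmbOfFin_mem rfl s) h2)

theorem vd_swap (A : Finset (Fin n)) (J : Fin n → Fin k) {i j : Fin n} (hi : i ∈ A) (hj : j ∈ A)
    (hij : i ≠ j) : vd A (J ∘ Equiv.swap i j) = - vd A J := by
  have hr : ∀ i ∈ A, ∃ r, A.orderEmbOfFin rfl r = i := by
    intro i hi
    have : i ∈ Set.range (A.orderEmbOfFin rfl) := by
      rw [Finset.range_orderEmbOfFin]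
      exact hi
    exact this
  obtain ⟨r, hr1⟩ := hr i hi
  obtain ⟨s, hs1⟩ := hr j hj
  have hrs : r ≠ s := fun h => hij (by rw [← hr1, ← hs1, h])
  have h1 : ∀ t, Equiv.swap i j (A.orderEmbOfFin rfl t) =
      A.orderEmbOfFin rfl (Equiv.swap r s t) := by
    intro t
    rw [← hr1, ← hs1]
    by_cases h1 : t = r
    · subst h1
      rw [Equiv.swap_apply_left, Equiv.swap_apply_left]
    · by_cases h2 : t = s
      · subst h2
        rw [Equiv.swap_apply_right, Equiv.swap_apply_right]
      · rw [Equiv.swap_apply_of_ne_of_ne h1 h2, Equiv.swap_apply_of_ne_of_ne]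
        · exact fun h => h1 ((A.orderEmbOfFin rfl).injective h)
        · exact fun h => h2 ((A.orderEmbOfFin rfl).injective h)
  unfold vd
  have h2 : (Matrix.vandermonde (fun t : Fin A.card =>
      (((J ∘ Equiv.swap i j) (A.orderEmbOfFin rfl t) : ℕ) : ℂ))) =
      (Matrix.vandermonde (fun t : Fin A.card => ((J (A.orderEmbOfFin rfl t) : ℕ) : ℂ))).submatrix
        (Equiv.swap r s) id := by
    ext t m
    rw [Matrix.submatrix_apply, Matrix.vandermonde_apply, Matrix.vandermonde_apply,
      Function.comp_apply, h1]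
    rfl
  rw [h2, Matrix.det_permute, Equiv.Perm.sign_swap hrs]
  simp

theorem swap_out {A : Finset (Fin n)} {i j x : Fin n} (hi : i ∉ A) (hj : j ∉ A) (hx : x ∈ A) :
    Equiv.swap i j x = x :=
  Equiv.swap_apply_of_ne_of_ne (by rintro rfl; exact hi hx) (by rintro rfl; exact hj hx)

theorem swap_in {A : Finset (Fin n)} {i j x : Fin n} (hi : i ∈ A) (hj : j ∈ A) (hx : x ∉ A) :
    Equiv.swap i j x = x :=
  Equiv.swap_apply_of_ne_of_ne (by rintro rfl; exact hx hi) (by rintro rfl; exact hx hj)

theorem vd_swap_out (A : Finset (Fin n)) (J : Fin n → Fin k) {i j : Fin n} (hi : i ∉ A)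
    (hj : j ∉ A) : vd A (J ∘ Equiv.swap i j) = vd A J := by
  unfold vd
  congr 2
  funext r
  have h := A.orderEmbOfFin_mem rfl r
  rw [Function.comp_apply, swap_out hi hj h]

/-- bijections with a prescribed value -/
theorem exists_bij (A : Finset (Fin n)) (W : Finset (Fin k)) (hAW : A.card = W.card) {p : Fin n}
    (hp : p ∈ A) {x : Fin k} (hx : x ∈ W) (z : Fin k) :
    ∃ f : Fin n → Fin k, Set.InjOn f A ∧ A.image f = W ∧ f p = x ∧ ∀ q, q ∉ A → f q = z := by
  classical
  let e : A ≃ W := Finset.equivOfCardEq hAW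
  let e' : A ≃ W := e.trans (Equiv.swap (e ⟨p, hp⟩) ⟨x, hx⟩)
  let f : Fin n → Fin k := fun q => if h : q ∈ A then (e' ⟨q, h⟩).1 else z
  have hf : ∀ (q : Fin n) (h : q ∈ A), f q = (e' ⟨q, h⟩).1 := fun q h => dif_pos h
  refine ⟨f, ?_, ?_, ?_, fun q hq => dif_neg hq⟩
  · intro q hq q' hq' hqq
    rw [hf q hq, hf q' hq'] at hqq
    have := e'.injective (Subtype.ext hqq)
    exact congrArg Subtype.val this
  · ext y
    rw [Finset.mem_image]
    constructor
    · rintro ⟨q, hq, rfl⟩
      rw [hf q hq]
      exact (e' ⟨q, hq⟩).2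
    · intro hy
      refine ⟨(e'.symm ⟨y, hy⟩).1, (e'.symm ⟨y, hy⟩).2, ?_⟩
      rw [hf _ (e'.symm ⟨y, hy⟩).2]
      simp
  · rw [hf p hp]
    simp [e']

/-- the windows -/
def win (k a : ℕ) (l : Fin k) : Finset (Fin k) :=
  Finset.univ.filter fun x => (l : ℕ) < x ∧ (x : ℕ) ≤ l + a

theorem card_win {k a : ℕ} {l : Fin k} (h : (l : ℕ) + a < k) : (win k a l).card = a := by
  have : (win k a l).card = (Finset.Ioc (l : ℕ) (l + a)).card := by
    refine Finset.card_bij (fun x _ => (x : ℕ)) ?_ ?_ ?_
    · intro x hx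
      unfold win at hx
      rw [Finset.mem_filter] at hx
      exact Finset.mem_Ioc.2 hx.2
    · intro x _ y _ hxy
      exact Fin.ext hxy
    · intro y hy
      rw [Finset.mem_Ioc] at hy
      refine ⟨⟨y, by omega⟩, ?_, rfl⟩
      unfold win
      rw [Finset.mem_filter]
      exact ⟨Finset.mem_univ _, hy⟩
  rw [this, Nat.card_Ioc]
  omega

theorem s_ex : S_ex := by
  classical
  intro n k hn A C hAC
  rcases Finset.eq_empty_or_nonempty A with hA | ⟨p0, hp0⟩
  · subst hA
    simpa using ex_zero (k := k) hn C
  have ha : 0 < A.card := Finset.card_pos.2 ⟨p0, hp0⟩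
  let cond : (Fin n → Fin k) → Fin k → Prop := fun J l =>
    (l : ℕ) < k - A.card ∧ A.image J = win k A.card l ∧ ∀ p, p ∉ A → (J p : ℕ) = k - 1
  let c : Ten n k ℂ := fun x => if cond x.1 x.2 then vd A x.1 else 0
  refine ⟨c, ⟨?_, ?_⟩, ?_, ?_⟩
  · intro i hi j hj hij J l
    have hc : cond (J ∘ Equiv.swap i j) l ↔ cond J l := by
      have h1 : A.image (J ∘ Equiv.swap i j) = A.image J := by
        rw [← Finset.image_image]
        congr 1
        ext x
        rw [Finset.mem_image]
        constructor
        · rintro ⟨y, hy, rfl⟩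
          by_cases h1 : y = i
          · subst h1; rwa [Equiv.swap_apply_left]
          · by_cases h2 : y = j
            · subst h2; rwa [Equiv.swap_apply_right]
            · rwa [Equiv.swap_apply_of_ne_of_ne h1 h2]
        · intro hx
          refine ⟨Equiv.swap i j x, ?_, Equiv.swap_apply_self i j x⟩
          by_cases h1 : x = i
          · subst h1; rwa [Equiv.swap_apply_left]
          · by_cases h2 : x = j
            · subst h2; rwa [Equiv.swap_apply_right]
            · rwa [Equiv.swap_apply_of_ne_of_ne h1 h2]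
      have h2 : (∀ p, p ∉ A → ((J ∘ Equiv.swap i j) p : ℕ) = k - 1) ↔
          ∀ p, p ∉ A → (J p : ℕ) = k - 1 := by
        refine forall_congr' fun p => forall_congr' fun hp => ?_
        rw [Function.comp_apply, swap_in hi hj hp]
      simp only [cond, h1, h2]
    simp only [c, hc]
    split_ifs
    · exact vd_swap A J hi hj hij
    · rw [neg_zero]
  · intro i hi j hj J l
    have hi' : i ∉ A := fun h => (Finset.disjoint_left.1 hAC h hi)
    have hj' : j ∉ A := fun h => (Finset.disjoint_left.1 hAC h hj)
    have hc : cond (J ∘ Equiv.swap i j) l ↔ cond J l := by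
      have h1 : A.image (J ∘ Equiv.swap i j) = A.image J := by
        refine Finset.image_congr fun x hx => ?_
        have hx' : x ∈ A := hx
        rw [Function.comp_apply, swap_out hi' hj' hx']
      have h2 : (∀ p, p ∉ A → ((J ∘ Equiv.swap i j) p : ℕ) = k - 1) ↔
          ∀ p, p ∉ A → (J p : ℕ) = k - 1 := by
        have hs : ∀ p, p ∉ A → Equiv.swap i j p ∉ A := by
          intro p hp
          by_cases h1 : p = i
          · subst h1; rwa [Equiv.swap_apply_left]
          · by_cases h2 : p = j
            · subst h2; rwa [Equiv.swap_apply_right]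
            · rwa [Equiv.swap_apply_of_ne_of_ne h1 h2]
        constructor
        · intro h p hp
          have := h _ (hs p hp)
          simpa using this
        · intro h p hp
          exact h _ (hs p hp)
      simp only [cond, h1, h2]
    simp only [c, hc]
    split_ifs
    · exact vd_swap_out A J hi' hj'
    · rfl
  · intro J l hne p
    have hc : cond J l := by
      by_contra h
      exact hne (if_neg h)
    obtain ⟨h1, h2, h3⟩ := hc
    by_cases hp : p ∈ A
    · have h4 : J p ∈ win k A.card l := by
        rw [← h2]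
        exact Finset.mem_image_of_mem _ hp
      unfold win at h4
      rw [Finset.mem_filter] at h4
      exact h4.2.1
    · rw [Fin.lt_def, h3 p hp]
      omega
  · intro j hj
    have hk : A.card < k := by omega
    let lv : {i : Fin k // j < i} → Fin k := fun i =>
      ⟨min ((i.1 : ℕ) - 1) (k - A.card - 1), by have := i.1.2; omega⟩
    have hlv : ∀ i, (lv i : ℕ) = min ((i.1 : ℕ) - 1) (k - A.card - 1) := fun _ => rfl
    have hlt : ∀ i, (lv i : ℕ) < k - A.card := by
      intro i
      rw [hlv]
      omega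
    have hcard : ∀ i, A.card = (win k A.card (lv i)).card := by
      intro i
      rw [card_win]
      have := hlt i
      omega
    have hmem : ∀ i : {i : Fin k // j < i}, i.1 ∈ win k A.card (lv i) := by
      intro i
      unfold win
      rw [Finset.mem_filter]
      refine ⟨Finset.mem_univ _, ?_, ?_⟩
      · have h1 : (j : ℕ) < (i.1 : ℕ) := i.2
        rw [hlv]
        omega
      · have h1 : (j : ℕ) < (i.1 : ℕ) := i.2
        have h2 := i.1.2
        rw [hlv]
        omega
    choose I hI1 hI2 hI3 hI4 using fun i =>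
      exists_bij A (win k A.card (lv i)) (hcard i) hp0 (hmem i) (⟨k - 1, by omega⟩ : Fin k)
    refine ⟨fun _ => p0, I, lv, ?_, ?_⟩
    · intro i
      have h1 : (j : ℕ) < (i.1 : ℕ) := i.2
      rw [Fin.le_def, hlv]
      omega
    · have hM : (Matrix.of fun i i' : {i : Fin k // j < i} =>
          c (Function.update (I i) p0 i'.1, lv i)) = Matrix.diagonal (fun i => vd A (I i)) := by
        ext i i'
        rw [Matrix.of_apply]
        by_cases h : i = i'
        · subst h
          rw [Matrix.diagonal_apply_eq]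
          have h1 : Function.update (I i) p0 i.1 = I i := by
            conv_lhs => rw [← hI3 i]
            exact Function.update_eq_self _ _
          rw [h1]
          refine if_pos ⟨hlt i, hI2 i, fun p hp => ?_⟩
          change ((I i p : Fin k) : ℕ) = k - 1
          rw [hI4 i p hp]
        · rw [Matrix.diagonal_apply_ne _ h]
          refine if_neg fun hc => ?_
          obtain ⟨_, h2, _⟩ := hc
          have h3 := hmem i
          rw [← h2, Finset.mem_image] at h3
          obtain ⟨q, hq, hq'⟩ := h3
          change Function.update (I i) p0 i'.1 q = i.1 at hq'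
          by_cases hqp : q = p0
          · rw [hqp, Function.update_self] at hq'
            exact h (Subtype.ext hq'.symm)
          · rw [Function.update_of_ne hqp, ← hI3 i] at hq'
            exact hqp (hI1 i hq hp0 hq')
      rw [hM, Matrix.det_diagonal]
      exact Finset.prod_ne_zero_iff.2 fun i _ => vd_ne A _ (hI1 i)

end Pool.Agent.Q12.NV
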