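import Pool.Agent.Q12.NV.Act

/-! Job NV-GEN: the generic triangular structure satisfies `GA`. -/

set_option autoImplicit false

namespace Pool.Agent.Q12.NV

open scoped BigOperators
open Matrix

theorem s_gen (hex : S_ex) : S_gen := by
  intro n k hn A C hAC d b τ e he K _ φ hφ j hj v hv
  obtain ⟨c, hc1, hc2, hc3⟩ := hex n k hn A C hAC
  obtain ⟨p, I, l, hl, hdet⟩ := hc3 j hj
  let mu : Ten n k (MvPolynomial τ ℂ) := fun x =>
    ∑ i, MvPolynomial.C ((b i : Ten n k ℂ) x) * MvPolynomial.X (e i)
  let cc : Nsub n k A C := ⟨c, hc1, hc2⟩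
  let y : τ → ℂ := Function.extend e (fun i => b.repr cc i) 0
  have hy : ∀ i, y (e i) = b.repr cc i := fun i => he.extend_apply _ _ i
  have hev : ∀ x, MvPolynomial.eval y (mu x) = c x := by
    intro x
    have h1 : (c : Ten n k ℂ) = ((∑ i, b.repr cc i • b i : Nsub n k A C) : Ten n k ℂ) := by
      rw [b.sum_repr]
    rw [h1, Submodule.coe_sum, Finset.sum_apply]
    simp only [mu, map_sum, map_mul, MvPolynomial.eval_C, MvPolynomial.eval_X, hy]
    refine Finset.sum_congr rfl fun i _ => ?_
    simp [mul_comm]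
  let M : Matrix {i : Fin k // j < i} {i : Fin k // j < i} (MvPolynomial τ ℂ) :=
    Matrix.of fun i i' => mu (Function.update (I i) (p i) i'.1, l i)
  have hM : M.det ≠ 0 := by
    intro h0
    apply hdet
    have h1 := RingHom.map_det (MvPolynomial.eval y) M
    rw [h0, map_zero] at h1
    rw [h1]
    congr 1
    ext i i'
    simp only [RingHom.mapMatrix_apply, Matrix.map_apply, Matrix.of_apply, M, hev]
  have hM' : (M.map φ).det ≠ 0 := by
    have h1 := RingHom.map_det φ M
    rw [RingHom.mapMatrix_apply] at h1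
    rw [← h1]
    intro h2
    exact hM (hφ (by rw [h2, map_zero]))
  have htri : ∀ (J : Fin n → Fin k) (m : Fin k) (q : Fin n), ¬ m < J q → mu (J, m) = 0 := by
    intro J m q hq
    refine Finset.sum_eq_zero fun i _ => ?_
    have hb : (b i : Ten n k ℂ) (J, m) = 0 := by
      by_contra h0
      exact hq ((b i).2.2 J m h0 q)
    rw [hb, map_zero, zero_mul]
  have hMv : (M.map φ) *ᵥ (fun i => v i.1) = 0 := by
    funext i
    have h1 := hv (p i) (I i) (l i) (hl i)
    change ∑ i', v i' * φ (mu (Function.update (I i) (p i) i', l i)) = 0 at h1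
    rw [← Finset.sum_filter_add_sum_filter_not Finset.univ (fun i' => j < i')] at h1
    rw [Finset.sum_eq_zero (s := Finset.univ.filter fun i' => ¬ j < i')] at h1
    · rw [add_zero, ← Finset.sum_subtype_eq_sum_filter] at h1
      simp only [Matrix.mulVec, dotProduct, Matrix.map_apply, Matrix.of_apply, M, Pi.zero_apply]
      rw [← h1]
      rw [Finset.subtype_univ]
      exact Finset.sum_congr rfl fun i' _ => mul_comm _ _
    · intro i' hi'
      rw [Finset.mem_filter] at hi'
      rw [htri _ _ (p i), map_zero, mul_zero]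
      rw [Function.update_self]
      exact fun h => hi'.2 (lt_of_le_of_lt (hl i) h)
  have h2 := Matrix.eq_zero_of_mulVec_eq_zero hM' hMv
  intro i hi
  exact congrFun h2 ⟨i, hi⟩

end Pool.Agent.Q12.NV
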