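import Pool.Agent.Q12.NV.Act

/-! Job NV-LU: LU decomposition relative to a partial flag. -/

set_option autoImplicit false

namespace Pool.Agent.Q12.NV

open scoped BigOperators
open Matrix

variable {n k : ℕ}

/-- the block function -/
def blk (k a : ℕ) (i : Fin k) : ℕ := min (i : ℕ) (k - a)

/-- The products of the elements of a triangular structure lie in the span of the first `k - a` basis
vectors. -/
theorem lt_of_ne {A C : Finset (Fin n)} {c : Ten n k ℂ} (hn : 1 ≤ n) (h1 : Typ A C c) (h2 : Tri c)
    {J : Fin n → Fin k} {l : Fin k} (h : c (J, l) ≠ 0) : (l : ℕ) < k - A.card := by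
  have hinj : Set.InjOn J A := by
    intro i hi j hj hij
    by_contra hne
    apply h
    have h3 := h1.1 i hi j hj hne J l
    have h4 : J ∘ Equiv.swap i j = J := by
      funext q
      rw [Function.comp_apply]
      by_cases hqi : q = i
      · subst hqi
        rw [Equiv.swap_apply_left, hij]
      · by_cases hqj : q = j
        · subst hqj
          rw [Equiv.swap_apply_right, hij]
        · rw [Equiv.swap_apply_of_ne_of_ne hqi hqj]
    rw [h4] at h3
    have h5 : (2 : ℂ) * c (J, l) = 0 := by linear_combination h3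
    simpa using h5
  have hsub : A.image J ⊆ Finset.Ioi l := by
    intro x hx
    obtain ⟨q, _, rfl⟩ := Finset.mem_image.1 hx
    exact Finset.mem_Ioi.2 (h2 J l h q)
  have h3 := Finset.card_le_card hsub
  rw [Finset.card_image_of_injOn hinj, Fin.card_Ioi] at h3
  have h4 := l.2
  have h5 : l < J ⟨0, hn⟩ := h2 J l h ⟨0, hn⟩
  have h6 : (l : ℕ) < (J ⟨0, hn⟩ : ℕ) := h5
  have h7 := (J ⟨0, hn⟩).2
  omega

theorem tri_act {A C : Finset (Fin n)} {c : Ten n k ℂ} (hn : 1 ≤ n) (h1 : Typ A C c) (h2 : Tri c)
    {p q : Matrix (Fin k) (Fin k) ℂ} (hp : p.BlockTriangular (blk k A.card))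
    (hq : q.BlockTriangular (blk k A.card)) : Tri (act p q c) := by
  intro I m hne r
  have h3 : ∃ J l, (∏ s, q (J s) (I s)) * c (J, l) * p m l ≠ 0 := by
    by_contra hno
    push Not at hno
    apply hne
    exact Finset.sum_eq_zero fun J _ => Finset.sum_eq_zero fun l _ => hno J l
  obtain ⟨J, l, hJl⟩ := h3
  have hc : c (J, l) ≠ 0 := fun h => hJl (by rw [h]; ring)
  have hpm : p m l ≠ 0 := fun h => hJl (by rw [h]; ring)
  have hq' : q (J r) (I r) ≠ 0 := fun h => hJl (by
    rw [Finset.prod_eq_zero (Finset.mem_univ r) h]; ring)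
  have hl := lt_of_ne hn h1 h2 hc
  have hlJ : (l : ℕ) < (J r : ℕ) := h2 J l hc r
  have h4 : ¬ blk k A.card l < blk k A.card m := fun h => hpm (hp h)
  have h5 : ¬ blk k A.card (I r) < blk k A.card (J r) := fun h => hq' (hq h)
  unfold blk at h4 h5
  rw [Fin.lt_def]
  omega

theorem det_low' {a : ℕ} {u : Matrix (Fin k) (Fin k) ℂ} (h : LowW a u) : u.det = 1 := by
  rw [Matrix.det_of_isLowerTriangular]
  · refine Finset.prod_eq_one fun i _ => ?_
    rw [h i i (fun h' => lt_irrefl _ h'.1), if_pos rfl]
  · intro i j hij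
    have hij' : i < j := hij
    rw [h i j (fun h' => lt_asymm h'.1 hij'), if_neg hij'.ne]

/-- The decomposition. -/
theorem exists_lu (a : ℕ) (h : Matrix (Fin k) (Fin k) ℂ)
    (hl : ∀ (m : ℕ) (hm : m ≤ k), (lead h m hm).det ≠ 0) :
    ∃ u q : Matrix (Fin k) (Fin k) ℂ, LowW a u ∧ q.BlockTriangular (blk k a) ∧ u = h * q := by
  have hh : IsUnit h.det := by
    have := hl k le_rfl
    rw [isUnit_iff_ne_zero]
    exact this
  -- the solutions
  let y : ∀ j : Fin k, Fin ((j : ℕ) + 1) → ℂ := fun j =>
    (lead h (j + 1) j.2)⁻¹ *ᵥ Pi.single (Fin.last j) 1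
  have hy : ∀ j : Fin k, lead h (j + 1) j.2 *ᵥ y j = Pi.single (Fin.last (j : ℕ)) 1 := by
    intro j
    have := hl (j + 1) j.2
    simp only [y]
    rw [Matrix.mulVec_mulVec, Matrix.mul_nonsing_inv _ (isUnit_iff_ne_zero.2 this),
      Matrix.one_mulVec]
  let q : Matrix (Fin k) (Fin k) ℂ := fun l j =>
    if (j : ℕ) < k - a then (if hlj : (l : ℕ) < j + 1 then y j ⟨l, hlj⟩ else 0) else h⁻¹ l j
  refine ⟨h * q, q, ?_, ?_, rfl⟩
  · intro i j hij
    by_cases hj : (j : ℕ) < k - a
    · have hij' : i ≤ j := by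
        by_contra h1
        exact hij ⟨not_le.1 h1, hj⟩
      have hi : (i : ℕ) < j + 1 := Nat.lt_succ_of_le hij'
      have h1 := congrFun (hy j) ⟨i, hi⟩
      simp only [Matrix.mulVec, dotProduct, lead, Matrix.submatrix_apply] at h1
      have h2 : (h * q) i j = ∑ l : Fin ((j : ℕ) + 1), h i (Fin.castLE j.2 l) * y j l := by
        rw [Matrix.mul_apply]
        have h3 : ∀ l : Fin k, h i l * q l j =
            if hlj : (l : ℕ) < j + 1 then h i l * y j ⟨l, hlj⟩ else 0 := by
          intro l
          simp only [q, if_pos hj]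
          split_ifs
          · rfl
          · rw [mul_zero]
        simp only [h3]
        rw [← Finset.sum_filter_add_sum_filter_not Finset.univ (fun l : Fin k => (l : ℕ) < j + 1)]
        rw [Finset.sum_eq_zero (s := Finset.univ.filter fun l : Fin k => ¬ (l : ℕ) < j + 1), add_zero]
        · symm
          refine Finset.sum_bij (fun l _ => Fin.castLE j.2 l) ?_ ?_ ?_ ?_
          · intro l _
            rw [Finset.mem_filter]
            exact ⟨Finset.mem_univ _, l.2⟩
          · intro l _ l' _ h4
            exact Fin.castLE_injective _ h4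
          · intro l hl'
            rw [Finset.mem_filter] at hl'
            exact ⟨⟨l, hl'.2⟩, Finset.mem_univ _, rfl⟩
          · intro l _
            rw [dif_pos (show ((Fin.castLE j.2 l : Fin k) : ℕ) < j + 1 from l.2)]
            rfl
        · intro l hl'
          rw [Finset.mem_filter] at hl'
          rw [dif_neg hl'.2]
      rw [h2]
      have h4 : (Fin.castLE j.2 (⟨i, hi⟩ : Fin ((j : ℕ) + 1)) : Fin k) = i := by
        ext
        rfl
      rw [h4] at h1
      rw [h1]
      by_cases h5 : i = j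
      · subst h5
        rw [if_pos rfl]
        have : (⟨i, hi⟩ : Fin ((i : ℕ) + 1)) = Fin.last i := by
          ext
          rfl
        rw [this, Pi.single_eq_same]
      · rw [if_neg h5, Pi.single_eq_of_ne]
        intro h6
        apply h5
        ext
        have := congrArg Fin.val h6
        simpa using this
    · have h1 : (h * q) i j = (h * h⁻¹) i j := by
        rw [Matrix.mul_apply, Matrix.mul_apply]
        refine Finset.sum_congr rfl fun l _ => ?_
        simp only [q, if_neg hj]
      rw [h1, Matrix.mul_nonsing_inv _ hh, Matrix.one_apply]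
  · intro l j hlj
    unfold blk at hlj
    have hj : (j : ℕ) < k - a := by omega
    simp only [q, if_pos hj]
    rw [dif_neg (by omega)]

theorem s_lu : S_lu := by
  intro n k hn A C c hc1 hc2 h hl
  obtain ⟨u, q, hu, hq, huq⟩ := exists_lu A.card h hl
  have hdu := det_low' hu
  have hh : IsUnit h.det := by
    have := hl k le_rfl
    rw [isUnit_iff_ne_zero]
    exact this
  have hdq : IsUnit q.det := by
    have h1 : h.det * q.det = 1 := by rw [← Matrix.det_mul, ← huq, hdu]
    exact IsUnit.of_mul_eq_one_right _ h1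
  have hq' : (q⁻¹).BlockTriangular (blk k A.card) := by
    letI := Matrix.invertibleOfIsUnitDet q hdq
    exact Matrix.blockTriangular_inv_of_blockTriangular hq
  refine ⟨u, act q⁻¹ q c, hu, hc1.act _ _, tri_act hn hc1 hc2 hq' hq, ?_⟩
  rw [act_act]
  have h1 : u * q⁻¹ = h := by
    rw [huq, Matrix.mul_assoc, Matrix.mul_nonsing_inv _ hdq, Matrix.mul_one]
  have h2 : q * u⁻¹ = h⁻¹ := by
    rw [huq, Matrix.mul_inv_rev, ← Matrix.mul_assoc, Matrix.mul_nonsing_inv _ hdq, Matrix.one_mul]
  rw [h1, h2]

end Pool.Agent.Q12.NV
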