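import Pool.Agent.Q12.NV.Act

/-! Job NV-NIL: triangular structures are nilpotent in every basis. -/

set_option autoImplicit false

namespace Pool.Agent.Q12.NV

open scoped BigOperators
open Matrix

variable {n k : ℕ}

theorem mul_zero_of_arg {K : Type} [CommRing K] (c : Ten n k K) (x : Fin n → Fin k → K) (p : Fin n)
    (hp : x p = 0) : mul c x = 0 := by
  funext l
  refine Finset.sum_eq_zero fun J _ => ?_
  rw [Finset.prod_eq_zero (Finset.mem_univ p), zero_mul]
  rw [hp]
  rfl

/-- Vectors with coordinates only below `j`. -/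
def Fl (k : ℕ) (j : ℕ) : Set (Fin k → ℂ) := {v | ∀ i : Fin k, j ≤ (i : ℕ) → v i = 0}

theorem mul_fl {c : Ten n k ℂ} (hc : Tri c) (x : Fin n → Fin k → ℂ) (p : Fin n) (j : ℕ)
    (hp : x p ∈ Fl k j) : mul c x ∈ Fl k (j - 1) := by
  intro l hl
  refine Finset.sum_eq_zero fun J _ => ?_
  by_cases h : c (J, l) = 0
  · rw [h, mul_zero]
  · have h1 : l < J p := hc J l h p
    have h2 : j ≤ (J p : ℕ) := by
      have : (l : ℕ) < (J p : ℕ) := h1
      omega
    rw [Finset.prod_eq_zero (Finset.mem_univ p), zero_mul]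
    exact hp (J p) h2

theorem s_nil : S_nil := by
  intro n k hn c hc h hh
  have hhi : h⁻¹ * h = 1 := Matrix.nonsing_inv_mul _ hh
  have hih : h * h⁻¹ = 1 := Matrix.mul_nonsing_inv _ hh
  let G : ℕ → Set (Fin k → ℂ) := fun j => {v | h⁻¹ *ᵥ v ∈ Fl k j}
  have hG : ∀ (x : Fin n → Fin k → ℂ) (p : Fin n) (j : ℕ), x p ∈ G j →
      mul (act h h⁻¹ c) x ∈ G (j - 1) := by
    intro x p j hp
    change h⁻¹ *ᵥ mul (act h h⁻¹ c) x ∈ Fl k (j - 1)
    rw [mul_act, Matrix.mulVec_mulVec, hhi, Matrix.one_mulVec]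
    exact mul_fl hc _ p j hp
  have htop : ∀ v, v ∈ G k := fun v i hi => absurd i.2 (not_lt.2 hi)
  let B : ℕ → ℕ := fun d => Nat.rec 0 (fun _ b => 1 + n * b) d
  have hB : ∀ d, B (d + 1) = 1 + n * B d := fun d => rfl
  have key : ∀ (t : Mono n (Fin k → ℂ)) (d : ℕ), B d < t.ops →
      t.eval (act h h⁻¹ c) ∈ G (k - (d + 1)) := by
    intro t
    induction t with
    | leaf v => intro d hd; exact absurd hd (Nat.not_lt_zero _)
    | node f ih =>
      intro d hd
      cases d with
      | zero => exact hG _ ⟨0, hn⟩ k (htop _)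
      | succ d =>
        have h1 : ∃ i, B d < (f i).ops := by
          by_contra hno
          push Not at hno
          have h2 : ∑ i, (f i).ops ≤ n * B d := by
            calc ∑ i, (f i).ops ≤ ∑ _i : Fin n, B d := Finset.sum_le_sum fun i _ => hno i
              _ = n * B d := by simp
          have h3 : B (d + 1) < 1 + ∑ i, (f i).ops := hd
          rw [hB] at h3
          omega
        obtain ⟨i, hi⟩ := h1
        have h2 := hG (fun i => (f i).eval (act h h⁻¹ c)) i (k - (d + 1)) (ih i d hi)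
        have h3 : k - (d + 1) - 1 = k - (d + 1 + 1) := by omega
        rw [h3] at h2
        exact h2
  refine ⟨B k + 1, fun t ht => ?_⟩
  have h1 := key t k (by omega)
  have h2 : k - (k + 1) = 0 := by omega
  rw [h2] at h1
  have h3 : h⁻¹ *ᵥ t.eval (act h h⁻¹ c) = 0 := by
    funext i
    exact h1 i (Nat.zero_le _)
  have h4 : h *ᵥ (h⁻¹ *ᵥ t.eval (act h h⁻¹ c)) = 0 := by
    rw [h3, Matrix.mulVec_zero]
  rwa [Matrix.mulVec_mulVec, hih, Matrix.one_mulVec] at h4

end Pool.Agent.Q12.NV
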