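import Mathlib

/-! # Nilpotent `(A,C)`-commutative `n`-ary algebras: definitions and statements of the steps

Project NV (MP_e0acc1_al). `S_...` are the statements of the steps. -/

set_option autoImplicit false

namespace Pool.Agent.Q12.NV

open scoped BigOperators

/-- The structure constants of an `n`-ary algebra on `K^k`: `c (J, l)` is the coefficient of `e_l` in
the product of `e_(J 0), e_(J 1), …`. -/
abbrev Ten (n k : ℕ) (K : Type) := (Fin n → Fin k) × Fin k → K

variable {n k : ℕ} {K : Type} [CommRing K]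

/-- The product of `x 0, x 1, …` in the algebra with structure constants `c`. -/
def mul (c : Ten n k K) (x : Fin n → Fin k → K) : Fin k → K :=
  fun l => ∑ J : Fin n → Fin k, (∏ p, x p (J p)) * c (J, l)

/-- Monomials: iterated applications of an `n`-ary operation, in any arrangement of the brackets, to
elements of `V`. -/
inductive Mono (n : ℕ) (V : Type) : Type
  | leaf : V → Mono n V
  | node : (Fin n → Mono n V) → Mono n V

/-- The number of applications of the operation. -/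
def Mono.ops {n : ℕ} {V : Type} : Mono n V → ℕ
  | .leaf _ => 0
  | .node f => 1 + ∑ i, (f i).ops

/-- The value of a monomial. -/
def Mono.eval (c : Ten n k K) : Mono n (Fin k → K) → (Fin k → K)
  | .leaf v => v
  | .node f => mul c (fun i => (f i).eval c)

/-- Nilpotency: all monomials with at least `m` applications of the multiplication vanish. -/
def Nilp (c : Ten n k K) : Prop :=
  ∃ m : ℕ, ∀ t : Mono n (Fin k → K), m ≤ t.ops → t.eval c = 0

/-- `(A, C)`-commutativity. -/
def Comm (A C : Finset (Fin n)) (c : Ten n k K) : Prop :=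
  (∀ i ∈ A, ∀ j ∈ A, i ≠ j → ∀ x : Fin n → Fin k → K,
    mul c (x ∘ Equiv.swap i j) = - mul c x) ∧
  ∀ i ∈ C, ∀ j ∈ C, ∀ x : Fin n → Fin k → K, mul c (x ∘ Equiv.swap i j) = mul c x

/-- The variety of the nilpotent `(A, C)`-commutative `n`-ary algebra structures on `ℂ^k`. -/
def X (n k : ℕ) (A C : Finset (Fin n)) : Set (Ten n k ℂ) := {c | Nilp c ∧ Comm A C c}

/-- The answer. -/
def answer (n k a c : ℕ) : ℕ :=
  ∑ m ∈ Finset.range k, m.choose a * m.multichoose c * m ^ (n - a - c) +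
    (k.choose 2 - a.choose 2)

/-! ### Internal definitions -/

/-- `(A, C)`-commutativity of the structure constants. -/
def Typ (A C : Finset (Fin n)) (c : Ten n k K) : Prop :=
  (∀ i ∈ A, ∀ j ∈ A, i ≠ j → ∀ (J : Fin n → Fin k) (l : Fin k),
    c (J ∘ Equiv.swap i j, l) = - c (J, l)) ∧
  ∀ i ∈ C, ∀ j ∈ C, ∀ (J : Fin n → Fin k) (l : Fin k), c (J ∘ Equiv.swap i j, l) = c (J, l)

/-- Strictly triangular structure constants. -/
def Tri (c : Ten n k K) : Prop := ∀ (J : Fin n → Fin k) (l : Fin k), c (J, l) ≠ 0 → ∀ p, l < J p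

/-- The product `x ↦ h (c (g x 0, g x 1, …))`. -/
def act (h g : Matrix (Fin k) (Fin k) K) (c : Ten n k K) : Ten n k K :=
  fun x => ∑ J : Fin n → Fin k, ∑ l, (∏ p, g (J p) (x.1 p)) * c (J, l) * h x.2 l

/-- Lower unipotent matrices which are the identity in the last `a` columns. -/
def LowW (a : ℕ) (u : Matrix (Fin k) (Fin k) K) : Prop :=
  ∀ i j : Fin k, ¬ (j < i ∧ (j : ℕ) < k - a) → u i j = if i = j then 1 else 0

/-- The leading principal submatrix of order `m`. -/
def lead (h : Matrix (Fin k) (Fin k) K) (m : ℕ) (hm : m ≤ k) : Matrix (Fin m) (Fin m) K :=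
  h.submatrix (Fin.castLE hm) (Fin.castLE hm)

/-- Genericity: a vector `v` for which all products `c (e_(I 0), …, v, …)` lie in the span of the
`e_l`, `l < j`, lies in the span of the `e_i`, `i ≤ j`. -/
def GA (a : ℕ) (c : Ten n k K) : Prop :=
  ∀ j : Fin k, (j : ℕ) < k - a → ∀ v : Fin k → K,
    (∀ (p : Fin n) (I : Fin n → Fin k) (l : Fin k), j ≤ l →
      ∑ i, v i * c (Function.update I p i, l) = 0) → ∀ i, j < i → v i = 0

/-- The space of the strictly triangular `(A, C)`-commutative structure constants. -/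
def Nsub (n k : ℕ) (A C : Finset (Fin n)) : Submodule ℂ (Ten n k ℂ) where
  carrier := {c | Typ A C c ∧ Tri c}
  zero_mem' := ⟨⟨fun _ _ _ _ _ _ _ => by simp, fun _ _ _ _ _ _ => by simp⟩,
    fun _ _ h => absurd rfl h⟩
  add_mem' := by
    rintro c d ⟨⟨hc1, hc2⟩, hc3⟩ ⟨⟨hd1, hd2⟩, hd3⟩
    refine ⟨⟨fun i hi j hj hij J l => ?_, fun i hi j hj J l => ?_⟩, fun J l h p => ?_⟩
    · simp only [Pi.add_apply, hc1 i hi j hj hij J l, hd1 i hi j hj hij J l, neg_add]
    · simp only [Pi.add_apply, hc2 i hi j hj J l, hd2 i hi j hj J l]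
    · by_cases h1 : c (J, l) = 0
      · exact hd3 J l (fun h2 => h (by simp [h1, h2])) p
      · exact hc3 J l h1 p
  smul_mem' := by
    rintro r c ⟨⟨hc1, hc2⟩, hc3⟩
    refine ⟨⟨fun i hi j hj hij J l => ?_, fun i hi j hj J l => ?_⟩, fun J l h p => ?_⟩
    · simp only [Pi.smul_apply, hc1 i hi j hj hij J l, smul_neg]
    · simp only [Pi.smul_apply, hc2 i hi j hj J l]
    · exact hc3 J l (fun h2 => h (by simp [h2])) p

/-! ### Steps -/

/-- Job NV-TRI: simultaneous triangularization. -/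
def S_tri : Prop := ∀ (n k : ℕ) (c : Ten n k ℂ), Nilp c →
  ∃ h : Matrix (Fin k) (Fin k) ℂ, IsUnit h.det ∧ Tri (act h⁻¹ h c)

/-- Job NV-NIL: triangular structures are nilpotent in every basis. -/
def S_nil : Prop := ∀ (n k : ℕ), 1 ≤ n → ∀ c : Ten n k ℂ, Tri c →
  ∀ h : Matrix (Fin k) (Fin k) ℂ, IsUnit h.det → Nilp (act h h⁻¹ c)

/-- Job NV-LU. -/
def S_lu : Prop := ∀ (n k : ℕ), 1 ≤ n → ∀ (A C : Finset (Fin n)) (c : Ten n k ℂ),
  Typ A C c → Tri c → ∀ h : Matrix (Fin k) (Fin k) ℂ,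
  (∀ (m : ℕ) (hm : m ≤ k), (lead h m hm).det ≠ 0) →
  ∃ (u : Matrix (Fin k) (Fin k) ℂ) (c' : Ten n k ℂ), LowW A.card u ∧ Typ A C c' ∧ Tri c' ∧
    act h h⁻¹ c = act u u⁻¹ c'

/-- Job NV-DENS (uses `S_lu`). -/
def S_dens : Prop := ∀ (n k : ℕ), 1 ≤ n → ∀ (A C : Finset (Fin n))
  (f : MvPolynomial ((Fin n → Fin k) × Fin k) ℂ),
  (∀ (u : Matrix (Fin k) (Fin k) ℂ) (c : Ten n k ℂ), LowW A.card u → Typ A C c → Tri c →
    MvPolynomial.eval (act u u⁻¹ c) f = 0) →
  ∀ (h : Matrix (Fin k) (Fin k) ℂ) (c : Ten n k ℂ), IsUnit h.det → Typ A C c → Tri c →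
    MvPolynomial.eval (act h h⁻¹ c) f = 0

/-- Job NV-EX: the example which shows that the determinants in question do not vanish
identically. -/
def S_ex : Prop := ∀ (n k : ℕ), 2 ≤ n → ∀ (A C : Finset (Fin n)), Disjoint A C →
  ∃ c : Ten n k ℂ, Typ A C c ∧ Tri c ∧ ∀ j : Fin k, (j : ℕ) < k - A.card →
    ∃ (p : {i : Fin k // j < i} → Fin n) (I : {i : Fin k // j < i} → Fin n → Fin k)
      (l : {i : Fin k // j < i} → Fin k), (∀ i, j ≤ l i) ∧
      (Matrix.of fun i i' : {i : Fin k // j < i} =>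
        c (Function.update (I i) (p i) i'.1, l i)).det ≠ 0

/-- Job NV-GEN: the generic triangular structure satisfies `GA`. -/
def S_gen : Prop := ∀ (n k : ℕ), 2 ≤ n → ∀ (A C : Finset (Fin n)), Disjoint A C →
  ∀ (d : ℕ) (b : Module.Basis (Fin d) ℂ (Nsub n k A C)) (τ : Type) (e : Fin d → τ),
  Function.Injective e → ∀ (K : Type) [Field K] (φ : MvPolynomial τ ℂ →+* K),
  Function.Injective φ →
  GA A.card (fun x => φ (∑ i, MvPolynomial.C ((b i : Ten n k ℂ) x) * MvPolynomial.X (e i)) :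
    Ten n k K)

/-- Job NV-DESC: the coefficients of `u` lie in the field generated by the structure constants. -/
def S_desc : Prop := ∀ (n k : ℕ), 1 ≤ n → ∀ (a : ℕ) (K : Type) [Field K] (K₀ : Subfield K)
  (u : Matrix (Fin k) (Fin k) K) (c : Ten n k K), LowW a u → Tri c → GA a c →
  (∀ x, act u u⁻¹ c x ∈ K₀) → ∀ i j, u i j ∈ K₀

/-- Job NV-DIM: the dimension of the space of the strictly triangular structures. -/
def S_dim : Prop := ∀ (n k : ℕ) (A C : Finset (Fin n)), Disjoint A C →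
  Module.finrank ℂ (Nsub n k A C) =
    ∑ m ∈ Finset.range k, m.choose A.card * m.multichoose C.card * m ^ (n - A.card - C.card)

/-- Job NV-CNT: the number of the free coefficients of `u`. -/
def S_cnt : Prop := ∀ (k a : ℕ),
  Fintype.card {x : Fin k × Fin k // x.2 < x.1 ∧ (x.2 : ℕ) < k - a} = k.choose 2 - a.choose 2

end Pool.Agent.Q12.NV
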