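import Pool.Agent.Q12.NV.Act

/-! Job NV-TRI: simultaneous strict triangularization of a nilpotent `n`-ary algebra. -/

set_option autoImplicit false

namespace Pool.Agent.Q12.NV

open scoped BigOperators
open Matrix

theorem exists_killed {V : Type} [AddCommGroup V] [Module ℂ V] [Nontrivial V]
    (T : Set (Module.End ℂ V)) (m : ℕ)
    (hT : ∀ L : List (Module.End ℂ V), (∀ t ∈ L, t ∈ T) → L.length = m → L.prod = 0) :
    ∃ w : V, w ≠ 0 ∧ ∀ t ∈ T, t w = 0 := by
  classical
  have hex : ∃ m, ∀ L : List (Module.End ℂ V), (∀ t ∈ L, t ∈ T) → L.length = m → L.prod = 0 :=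
    ⟨m, hT⟩
  have hspec := Nat.find_spec hex
  have hmin := fun r => Nat.find_min hex (m := r)
  set r := Nat.find hex with hr
  cases hr' : r with
  | zero =>
    exfalso
    have h1 := hspec [] (by simp) (by rw [hr']; rfl)
    rw [List.prod_nil] at h1
    obtain ⟨v, hv⟩ := exists_ne (0 : V)
    exact hv (by have := congrArg (fun g : Module.End ℂ V => g v) h1; simpa using this)
  | succ s =>
    have h1 := hmin s (by omega)
    push Not at h1
    obtain ⟨L, hL1, hL2, hL3⟩ := h1
    obtain ⟨v, hv⟩ : ∃ v, L.prod v ≠ 0 := by
      by_contra hno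
      push Not at hno
      exact hL3 (LinearMap.ext hno)
    refine ⟨L.prod v, hv, fun t ht => ?_⟩
    have h2 := hspec (t :: L) (by
      intro t' ht'
      rcases List.mem_cons.1 ht' with h | h
      · rw [h]; exact ht
      · exact hL1 t' h) (by rw [List.length_cons, hL2, hr'])
    rw [List.prod_cons] at h2
    exact congrArg (fun g : Module.End ℂ V => g v) h2

theorem exists_flag : ∀ (k : ℕ) (V : Type) [AddCommGroup V] [Module ℂ V] [FiniteDimensional ℂ V],
    Module.finrank ℂ V = k → ∀ (T : Set (Module.End ℂ V)) (m : ℕ),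
    (∀ L : List (Module.End ℂ V), (∀ t ∈ L, t ∈ T) → L.length = m → L.prod = 0) →
    ∃ b : Module.Basis (Fin k) ℂ V, ∀ t ∈ T, ∀ i,
      t (b i) ∈ Submodule.span ℂ (b '' {j | j < i}) := by
  intro k
  induction k with
  | zero =>
    intro V _ _ _ hV T m _
    exact ⟨Module.finBasisOfFinrankEq ℂ V hV, fun t _ i => i.elim0⟩
  | succ k ih =>
    intro V _ _ _ hV T m hT
    haveI : Nontrivial V := Module.nontrivial_of_finrank_pos (R := ℂ) (by omega)
    obtain ⟨w, hw0, hw⟩ := exists_killed T m hT
    let W : Submodule ℂ V := Submodule.span ℂ {w}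
    have hW : ∀ t ∈ T, W ≤ W.comap t := by
      intro t ht
      rw [Submodule.span_le]
      intro x hx
      rw [Set.mem_singleton_iff] at hx
      subst hx
      rw [SetLike.mem_coe, Submodule.mem_comap, hw t ht]
      exact W.zero_mem
    let T' : Set (Module.End ℂ (V ⧸ W)) := {s | ∃ t, ∃ ht : t ∈ T, s = W.mapQ W t (hW t ht)}
    have hfr : Module.finrank ℂ (V ⧸ W) = k := by
      have h1 := Submodule.finrank_quotient_add_finrank W
      have h2 : Module.finrank ℂ W = 1 := finrank_span_singleton hw0
      omega
    have hT' : ∀ L : List (Module.End ℂ (V ⧸ W)), (∀ t ∈ L, t ∈ T') → L.length = m →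
        L.prod = 0 := by
      have key : ∀ L : List (Module.End ℂ (V ⧸ W)), (∀ t ∈ L, t ∈ T') →
          ∃ L₁ : List (Module.End ℂ V), (∀ t ∈ L₁, t ∈ T) ∧ L₁.length = L.length ∧
            ∀ v, L.prod (W.mkQ v) = W.mkQ (L₁.prod v) := by
        intro L
        induction L with
        | nil => intro _; exact ⟨[], by simp, rfl, fun v => rfl⟩
        | cons s L ihL =>
          intro hL
          obtain ⟨L₁, h1, h2, h3⟩ := ihL (fun t ht => hL t (List.mem_cons_of_mem _ ht))
          obtain ⟨t, ht, hst⟩ := hL s List.mem_cons_self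
          refine ⟨t :: L₁, ?_, ?_, ?_⟩
          · intro t' ht'
            rcases List.mem_cons.1 ht' with h | h
            · rw [h]; exact ht
            · exact h1 t' h
          · rw [List.length_cons, List.length_cons, h2]
          · intro v
            rw [List.prod_cons, List.prod_cons, Module.End.mul_apply, Module.End.mul_apply, h3, hst]
            rfl
      intro L hL hlen
      obtain ⟨L₁, h1, h2, h3⟩ := key L hL
      have h4 := hT L₁ h1 (by rw [h2, hlen])
      apply LinearMap.ext
      intro x
      obtain ⟨v, rfl⟩ := W.mkQ_surjective x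
      rw [h3, h4]
      simp
    obtain ⟨b', hb'⟩ := ih (V ⧸ W) hfr T' m hT'
    choose e he using fun i => W.mkQ_surjective (b' i)
    have hmkw : W.mkQ w = 0 := by
      rw [Submodule.mkQ_apply, Submodule.Quotient.mk_eq_zero]
      exact Submodule.mem_span_singleton_self w
    have hei : LinearIndependent ℂ e := by
      apply LinearIndependent.of_comp W.mkQ
      have : W.mkQ ∘ e = b' := funext he
      rw [this]
      exact b'.linearIndependent
    have hwe : w ∉ Submodule.span ℂ (Set.range e) := by
      intro hmem
      obtain ⟨a, ha⟩ := (Submodule.mem_span_range_iff_exists_fun ℂ).1 hmem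
      have h1 : ∑ i, a i • b' i = 0 := by
        have := congrArg W.mkQ ha
        rw [map_sum, hmkw] at this
        simp only [map_smul, he] at this
        exact this
      have h2 := (Fintype.linearIndependent_iff.1 b'.linearIndependent) a h1
      apply hw0
      rw [← ha]
      exact Finset.sum_eq_zero fun i _ => by rw [h2 i, zero_smul]
    have hli : LinearIndependent ℂ (Fin.cons w e : Fin (k + 1) → V) :=
      linearIndependent_finCons.2 ⟨hei, hwe⟩
    let b := basisOfLinearIndependentOfCardEqFinrank hli (by rw [Fintype.card_fin, hV])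
    have hb : ∀ i, b i = (Fin.cons w e : Fin (k + 1) → V) i := fun i => by
      simp [b]
    refine ⟨b, fun t ht i => ?_⟩
    refine Fin.cases ?_ (fun i => ?_) i
    · rw [hb, Fin.cons_zero, hw t ht]
      exact Submodule.zero_mem _
    · rw [hb, Fin.cons_succ]
      have h1 := hb' _ ⟨t, ht, rfl⟩ i
      rw [← he i] at h1
      have h2 : W.mapQ W t (hW t ht) (W.mkQ (e i)) = W.mkQ (t (e i)) := rfl
      rw [h2] at h1
      have h3 : (b' '' {j | j < i}) = W.mkQ '' (e '' {j | j < i}) := by
        rw [Set.image_image]
        exact Set.image_congr fun j _ => (he j).symm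
      rw [h3, ← Submodule.map_span] at h1
      obtain ⟨z, hz, hz'⟩ := h1
      have h4 : t (e i) - z ∈ W := by
        rw [← Submodule.Quotient.mk_eq_zero, Submodule.Quotient.mk_sub, sub_eq_zero]
        exact hz'.symm
      have h5 : W ≤ Submodule.span ℂ (b '' {j | j < i.succ}) := by
        rw [Submodule.span_le, Set.singleton_subset_iff]
        refine Submodule.subset_span ⟨0, Fin.succ_pos i, ?_⟩
        rw [hb, Fin.cons_zero]
      have h6 : Submodule.span ℂ (e '' {j | j < i}) ≤ Submodule.span ℂ (b '' {j | j < i.succ}) := by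
        rw [Submodule.span_le]
        rintro _ ⟨j, hj, rfl⟩
        refine Submodule.subset_span ⟨j.succ, Fin.succ_lt_succ_iff.2 hj, ?_⟩
        rw [hb, Fin.cons_succ]
      have h7 : t (e i) = (t (e i) - z) + z := by abel
      rw [h7]
      exact Submodule.add_mem _ (h5 h4) (h6 hz)

variable {n k : ℕ}

/-- The product as a linear map in the `p`-th argument. -/
noncomputable def mulL (c : Ten n k ℂ) (x : Fin n → Fin k → ℂ) (p : Fin n) :
    Module.End ℂ (Fin k → ℂ) where
  toFun v := mul c (Function.update x p v)
  map_add' v w := by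
    funext l
    have h : ∀ z : Fin k → ℂ, mul c (Function.update x p z) l =
        ∑ J : Fin n → Fin k, z (J p) * (∏ q ∈ Finset.univ.erase p, x q (J q)) * c (J, l) := by
      intro z
      unfold mul
      refine Finset.sum_congr rfl fun J _ => ?_
      rw [← Finset.mul_prod_erase Finset.univ _ (Finset.mem_univ p), Function.update_self]
      congr 2
      exact Finset.prod_congr rfl fun q hq => by
        rw [Function.update_of_ne (Finset.ne_of_mem_erase hq)]
    rw [Pi.add_apply, h, h, h, ← Finset.sum_add_distrib]
    refine Finset.sum_congr rfl fun J _ => ?_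
    rw [Pi.add_apply]
    ring
  map_smul' r v := by
    funext l
    have h : ∀ z : Fin k → ℂ, mul c (Function.update x p z) l =
        ∑ J : Fin n → Fin k, z (J p) * (∏ q ∈ Finset.univ.erase p, x q (J q)) * c (J, l) := by
      intro z
      unfold mul
      refine Finset.sum_congr rfl fun J _ => ?_
      rw [← Finset.mul_prod_erase Finset.univ _ (Finset.mem_univ p), Function.update_self]
      congr 2
      exact Finset.prod_congr rfl fun q hq => by
        rw [Function.update_of_ne (Finset.ne_of_mem_erase hq)]
    rw [RingHom.id_apply, Pi.smul_apply, h, h, smul_eq_mul, Finset.mul_sum]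
    refine Finset.sum_congr rfl fun J _ => ?_
    rw [Pi.smul_apply, smul_eq_mul]
    ring

theorem s_tri : S_tri := by
  classical
  intro n k c hc
  obtain ⟨m, hm⟩ := hc
  let T : Set (Module.End ℂ (Fin k → ℂ)) := {t | ∃ x p, t = mulL c x p}
  have hT : ∀ L : List (Module.End ℂ (Fin k → ℂ)), (∀ t ∈ L, t ∈ T) → L.length = m →
      L.prod = 0 := by
    have key : ∀ L : List (Module.End ℂ (Fin k → ℂ)), (∀ t ∈ L, t ∈ T) →
        ∀ v, ∃ t : Mono n (Fin k → ℂ), L.prod v = t.eval c ∧ L.length ≤ t.ops := by
      intro L
      induction L with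
      | nil => intro _ v; exact ⟨.leaf v, rfl, Nat.zero_le _⟩
      | cons s L ihL =>
        intro hL v
        obtain ⟨t, ht1, ht2⟩ := ihL (fun t ht => hL t (List.mem_cons_of_mem _ ht)) v
        obtain ⟨x, p, hs⟩ := hL s List.mem_cons_self
        refine ⟨.node (Function.update (fun q => Mono.leaf (x q)) p t), ?_, ?_⟩
        · rw [List.prod_cons, Module.End.mul_apply, ht1, hs]
          change mul c (Function.update x p (t.eval c)) = mul c _
          congr 1
          funext q
          by_cases hq : q = p
          · subst hq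
            rw [Function.update_self, Function.update_self]
          · rw [Function.update_of_ne hq, Function.update_of_ne hq]
            rfl
        · rw [List.length_cons]
          change _ ≤ 1 + ∑ i, (Function.update (fun q => Mono.leaf (x q)) p t i).ops
          have h1 : (Function.update (fun q => Mono.leaf (x q)) p t p).ops ≤
              ∑ i, (Function.update (fun q => Mono.leaf (x q)) p t i).ops :=
            Finset.single_le_sum (f := fun i =>
              (Function.update (fun q => Mono.leaf (x q)) p t i).ops)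
              (fun i _ => Nat.zero_le _) (Finset.mem_univ p)
          rw [Function.update_self] at h1
          omega
    intro L hL hlen
    apply LinearMap.ext
    intro v
    obtain ⟨t, ht1, ht2⟩ := key L hL v
    rw [ht1, hm t (by rw [← hlen]; exact ht2)]
    rfl
  obtain ⟨b, hb⟩ := exists_flag k (Fin k → ℂ) (by simp) T m hT
  let h : Matrix (Fin k) (Fin k) ℂ := fun j i => b i j
  have hh : h = (Pi.basisFun ℂ (Fin k)).toMatrix b := by
    ext i j
    simp [h, Module.Basis.toMatrix_apply]
  have hu : IsUnit h.det := by
    rw [hh]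
    exact Matrix.isUnit_det_of_right_inverse
      (Module.Basis.toMatrix_mul_toMatrix_flip (Pi.basisFun ℂ (Fin k)) b)
  have hhi : h⁻¹ * h = 1 := Matrix.nonsing_inv_mul _ hu
  refine ⟨h, hu, ?_⟩
  intro J l hne p
  by_contra hlt
  apply hne
  have hcol : ∀ i, h *ᵥ Pi.single i 1 = b i := by
    intro i
    funext j
    simp [h, Matrix.mulVec_single]
  rw [← mul_single (act h⁻¹ h c), mul_act]
  have h1 : (fun q => h *ᵥ (Pi.single (J q) 1 : Fin k → ℂ)) = fun q => b (J q) :=
    funext fun q => hcol _
  rw [h1]
  have h2 : mul c (fun q => b (J q)) ∈ Submodule.span ℂ (b '' {j | j < J p}) := by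
    have h3 := hb _ ⟨fun q => b (J q), p, rfl⟩ (J p)
    change mul c (Function.update (fun q => b (J q)) p (b (J p))) ∈ _ at h3
    have h4 : Function.update (fun q => b (J q)) p (b (J p)) = fun q => b (J q) :=
      Function.update_eq_self p _
    rwa [h4] at h3
  have h3 : ∀ z ∈ Submodule.span ℂ (b '' {j | j < J p}), (h⁻¹ *ᵥ z) l = 0 := by
    intro z hz
    induction hz using Submodule.span_induction with
    | mem z hz =>
      obtain ⟨j, hj, rfl⟩ := hz
      rw [← hcol j, Matrix.mulVec_mulVec, hhi, Matrix.one_mulVec, Pi.single_eq_of_ne]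
      intro hlj
      rw [hlj] at hlt
      exact hlt hj
    | zero => rw [Matrix.mulVec_zero]; rfl
    | add z w _ _ hz hw => rw [Matrix.mulVec_add, Pi.add_apply, hz, hw, add_zero]
    | smul r z _ hz => rw [Matrix.mulVec_smul, Pi.smul_apply, hz, smul_zero]
  exact h3 _ h2

end Pool.Agent.Q12.NV
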